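import Pool.Agent.Lib.MP_24b5ff_co.Potential

/-!
# Fractional triangle decompositions: the dual condition is sufficient
-/

namespace Pool.Agent.Lib.MP_24b5ff_co

open Finset

variable {V : Type*} [Fintype V] [DecidableEq V]

/-- If every symmetric edge weighting that is nonnegative on triangles has nonnegative total
weight, then there is a fractional triangle decomposition. -/
theorem exists_decomp_of_dual (G : SimpleGraph V) [DecidableRel G.Adj]
    (h : ∀ w : V → V → ℝ, (∀ x y, w x y = w y x) →
      (∀ x y z, G.Adj x y → G.Adj y z → G.Adj x z → 0 ≤ w x y + w y z + w x z) →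
      0 ≤ ∑ x, ∑ y, if G.Adj x y then w x y else 0) :
    ∃ ω : Finset V → ℝ, (∀ T ∈ G.cliqueFinset 3, 0 ≤ ω T ∧ ω T ≤ 1) ∧
      ∀ x y, G.Adj x y → ∑ T ∈ G.cliqueFinset 3 with x ∈ T ∧ y ∈ T, ω T = 1 := by
  classical
  let a : Finset V → (V → V → ℝ) →ₗ[ℝ] ℝ := fun T =>
    - ∑ x ∈ T, ∑ y ∈ T, (if G.Adj x y then ev2 x y else 0)
  have ha : ∀ T d, a T d = - ∑ x ∈ T, ∑ y ∈ T, (if G.Adj x y then d x y else 0) := by
    intro T d
    simp only [a, LinearMap.neg_apply, LinearMap.sum_apply]
    congr 1
    refine Finset.sum_congr rfl fun x _ => Finset.sum_congr rfl fun y _ => ?_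
    split_ifs <;> simp
  let b : (V → V → ℝ) →ₗ[ℝ] ℝ := - ∑ x, ∑ y, (if G.Adj x y then ev2 x y else 0)
  have hb : ∀ d, b d = - ∑ x, ∑ y, (if G.Adj x y then d x y else 0) := by
    intro d
    simp only [b, LinearMap.neg_apply, LinearMap.sum_apply]
    congr 1
    refine Finset.sum_congr rfl fun x _ => Finset.sum_congr rfl fun y _ => ?_
    split_ifs <;> simp
  obtain ⟨u, hu0, hu⟩ := farkas (G.cliqueFinset 3) a b (by
    intro d hd
    rw [hb]
    have h1 := h (fun x y => (d x y + d y x) / 2) (fun x y => by ring) (by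
      intro x y z hxy hyz hxz
      have hT : ({x, y, z} : Finset V) ∈ G.cliqueFinset 3 := by
        rw [SimpleGraph.mem_cliqueFinset_iff, SimpleGraph.is3Clique_iff]
        exact ⟨x, y, z, hxy, hxz, hyz, rfl⟩
      have h2 := hd _ hT
      rw [ha] at h2
      have e : ∀ f : V → ℝ, ∑ a ∈ ({x, y, z} : Finset V), f a = f x + f y + f z := by
        intro f
        rw [Finset.sum_insert (by simp [hxy.ne, hxz.ne]), Finset.sum_insert (by simp [hyz.ne]),
          Finset.sum_singleton]
        ring
      simp only [e, hxy, hyz, hxz, hxy.symm, hyz.symm, hxz.symm, SimpleGraph.irrefl, if_true,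
        if_false] at h2
      linarith)
    have h3 : ∑ x, ∑ y, (if G.Adj x y then (d x y + d y x) / 2 else 0)
        = ∑ x, ∑ y, (if G.Adj x y then d x y else 0) := by
      have h4 : ∀ x y, (if G.Adj x y then (d x y + d y x) / 2 else 0)
          = (if G.Adj x y then d x y else 0) / 2 + (if G.Adj y x then d y x else 0) / 2 := by
        intro x y
        rw [if_congr (G.adj_comm y x) rfl rfl]
        split_ifs <;> ring
      simp only [h4, Finset.sum_add_distrib]
      rw [Finset.sum_comm (f := fun x y => (if G.Adj y x then d y x else 0) / 2)]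
      rw [← Finset.sum_add_distrib]
      refine Finset.sum_congr rfl fun x _ => ?_
      rw [← Finset.sum_add_distrib]
      exact Finset.sum_congr rfl fun y _ => by ring
    rw [h3] at h1
    linarith)
  have hedge : ∀ x y, G.Adj x y → ∑ T ∈ G.cliqueFinset 3 with x ∈ T ∧ y ∈ T, u T = 1 := by
    intro x y hxy
    set d : V → V → ℝ := fun a b => if a = x ∧ b = y then 1 else 0 with hd
    have h1 := hu d
    rw [hb] at h1
    have h2 : ∑ a, ∑ b, (if G.Adj a b then d a b else 0) = 1 := by
      rw [Finset.sum_eq_single x, Finset.sum_eq_single y]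
      · simp [hd, hxy]
      · intro b _ hb; simp [hd, hb]
      · simp
      · intro a _ ha
        exact Finset.sum_eq_zero fun b _ => by simp [hd, ha]
      · simp
    have h3 : ∀ T, a T d = if x ∈ T ∧ y ∈ T then -1 else 0 := by
      intro T
      rw [ha]
      by_cases hx : x ∈ T
      · by_cases hy : y ∈ T
        · rw [Finset.sum_eq_single x, Finset.sum_eq_single y]
          · simp [hd, hxy, hx, hy]
          · intro b _ hb; simp [hd, hb]
          · intro h; exact absurd hy h
          · intro a _ ha
            exact Finset.sum_eq_zero fun b _ => by simp [hd, ha]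
          · intro h; exact absurd hx h
        · rw [if_neg (fun h => hy h.2), neg_eq_zero]
          refine Finset.sum_eq_zero fun a _ => Finset.sum_eq_zero fun b hb => ?_
          have : b ≠ y := fun h => hy (h ▸ hb)
          simp [hd, this]
      · rw [if_neg (fun h => hx h.1), neg_eq_zero]
        refine Finset.sum_eq_zero fun a ha => Finset.sum_eq_zero fun b _ => ?_
        have : a ≠ x := fun h => hx (h ▸ ha)
        simp [hd, this]
    rw [h2] at h1
    simp only [h3] at h1
    rw [Finset.sum_filter]
    have h4 : ∑ T ∈ G.cliqueFinset 3, u T * (if x ∈ T ∧ y ∈ T then (-1:ℝ) else 0)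
        = - ∑ T ∈ G.cliqueFinset 3, (if x ∈ T ∧ y ∈ T then u T else 0) := by
      rw [← Finset.sum_neg_distrib]
      refine Finset.sum_congr rfl fun T _ => ?_
      split_ifs <;> ring
    rw [h4] at h1
    linarith
  refine ⟨u, fun T hT => ⟨hu0 T, ?_⟩, hedge⟩
  have hT' := hT
  rw [SimpleGraph.mem_cliqueFinset_iff, SimpleGraph.is3Clique_iff] at hT'
  obtain ⟨x, y, z, hxy, _, _, rfl⟩ := hT'
  rw [← hedge x y hxy]
  refine Finset.single_le_sum (f := u) (fun T _ => hu0 T) ?_
  simp [hT]

end Pool.Agent.Lib.MP_24b5ff_co
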