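import Pool.Agent.Lib.MP_24b5ff_co.Minimizer

/-!
# The two inequalities and the bound on the vertex sums
-/

namespace Pool.Agent.Lib.MP_24b5ff_co

open Finset

variable {V : Type*} [Fintype V]

/-- the quadratic form is positive semidefinite -/
theorem EE_nonneg {W : V → V → ℝ} (hW : IsWeight W)
    (hh5 : ∀ x, hh W x ≤ (Fintype.card V : ℝ) / 5) {f : V → V → ℝ}
    (hf : ∀ x y, f x y = f y x) : 0 ≤ EE W f := by
  set N : ℝ := (Fintype.card V : ℝ) with hN
  have hN0 : 0 ≤ N := by positivity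
  have h1 : ∑ a, ∑ b, ∑ c, W a b * W a c * (1 - W b c) * (f a b * f a c)
      ≤ ∑ a, ∑ b, ∑ c, (W a b * W a c * (1 - W b c) * f a b ^ 2 / 2
          + W a b * W a c * (1 - W b c) * f a c ^ 2 / 2) := by
    refine Finset.sum_le_sum fun a _ => Finset.sum_le_sum fun b _ =>
      Finset.sum_le_sum fun c _ => ?_
    have hp : 0 ≤ W a b * W a c * (1 - W b c) :=
      mul_nonneg (mul_nonneg (hW.nonneg _ _) (hW.nonneg _ _)) (by linarith [hW.le_one b c])
    have hq : f a b * f a c ≤ f a b ^ 2 / 2 + f a c ^ 2 / 2 := by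
      nlinarith [sq_nonneg (f a b - f a c)]
    have := mul_le_mul_of_nonneg_left hq hp
    calc W a b * W a c * (1 - W b c) * (f a b * f a c)
        ≤ W a b * W a c * (1 - W b c) * (f a b ^ 2 / 2 + f a c ^ 2 / 2) := this
      _ = _ := by ring
  have h2 : ∑ a, ∑ b, ∑ c, W a b * W a c * (1 - W b c) * f a c ^ 2 / 2
      = ∑ a, ∑ b, ∑ c, W a b * W a c * (1 - W b c) * f a b ^ 2 / 2 := by
    refine Finset.sum_congr rfl fun a _ => ?_
    rw [Finset.sum_comm]
    refine Finset.sum_congr rfl fun b _ => Finset.sum_congr rfl fun c _ => ?_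
    rw [hW.symm c b]
    ring
  have h3 : ∑ a, ∑ b, ∑ c, W a b * W a c * (1 - W b c) * f a b ^ 2 / 2
      = ∑ a, ∑ b, W a b * f a b ^ 2 * (dg W a - cod W a b) / 2 := by
    refine Finset.sum_congr rfl fun a _ => Finset.sum_congr rfl fun b _ => ?_
    rw [← sum_cherry, Finset.mul_sum, Finset.sum_div]
    exact Finset.sum_congr rfl fun c _ => by ring
  have h4 : ∑ a, ∑ b, W a b * f a b ^ 2 * dg W a = ∑ a, ∑ b, W a b * f a b ^ 2 * dg W b := by
    rw [Finset.sum_comm]
    refine Finset.sum_congr rfl fun a _ => Finset.sum_congr rfl fun b _ => ?_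
    rw [hW.symm b a, hf b a]
  have h5 : 0 ≤ ∑ a, ∑ b, W a b * f a b ^ 2 * (3 * cod W a b - dg W a - dg W b) := by
    refine Finset.sum_nonneg fun a _ => Finset.sum_nonneg fun b _ => ?_
    refine mul_nonneg (mul_nonneg (hW.nonneg _ _) (sq_nonneg _)) ?_
    have := cod_ge hW a b
    rw [dg_eq, dg_eq]
    rw [← hN] at this ⊢
    linarith [hh5 a, hh5 b]
  have h6 : ∑ a, ∑ b, W a b * f a b ^ 2 * (3 * cod W a b - dg W a - dg W b)
      = 3 * (∑ a, ∑ b, W a b * cod W a b * f a b ^ 2)
        - (∑ a, ∑ b, W a b * f a b ^ 2 * dg W a) - ∑ a, ∑ b, W a b * f a b ^ 2 * dg W b := by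
    simp only [Finset.mul_sum, ← Finset.sum_sub_distrib]
    refine Finset.sum_congr rfl fun a _ => Finset.sum_congr rfl fun b _ => ?_
    ring
  have h7 : ∑ a, ∑ b, W a b * f a b ^ 2 * (dg W a - cod W a b) / 2
      = (∑ a, ∑ b, W a b * f a b ^ 2 * dg W a) / 2
        - (∑ a, ∑ b, W a b * cod W a b * f a b ^ 2) / 2 := by
    simp only [Finset.sum_div, ← Finset.sum_sub_distrib]
    refine Finset.sum_congr rfl fun a _ => Finset.sum_congr rfl fun b _ => ?_
    ring
  simp only [Finset.sum_add_distrib] at h1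
  rw [h2, h3, h7] at h1
  rw [h6] at h5
  unfold EE
  linarith

/-- the form at the constant function -/
theorem EE_one {W : V → V → ℝ} (hW : IsWeight W) :
    EE W (fun _ _ => 1) ≤ ∑ x, ((Fintype.card V : ℝ) ^ 2 / 2
      - 5 / 2 * (Fintype.card V : ℝ) * hh W x + 7 / 2 * hh W x ^ 2) := by
  set N : ℝ := (Fintype.card V : ℝ) with hN
  -- sum of codegrees
  have hT : ∑ b, ∑ c, cod W b c = ∑ a, dg W a ^ 2 := by
    unfold cod dg
    have : ∀ a, (∑ z, W a z) ^ 2 = ∑ b, ∑ c, W b a * W c a := by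
      intro a
      rw [sq, Finset.sum_mul_sum]
      refine Finset.sum_congr rfl fun b _ => Finset.sum_congr rfl fun c _ => ?_
      rw [hW.symm a b, hW.symm a c]
    simp only [this]
    have e1 : ∑ b, ∑ c, ∑ z, W b z * W c z = ∑ b, ∑ z, ∑ c, W b z * W c z :=
      Finset.sum_congr rfl fun b _ => Finset.sum_comm
    rw [e1, Finset.sum_comm]
  have hT2 : ∑ a, ∑ b, ∑ c, W a b * W a c * (1 - W b c) * ((1:ℝ) * 1)
      = ∑ b, ∑ c, (1 - W b c) * cod W b c := by
    rw [Finset.sum_comm]
    refine Finset.sum_congr rfl fun b _ => ?_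
    rw [Finset.sum_comm]
    refine Finset.sum_congr rfl fun c _ => ?_
    unfold cod
    rw [Finset.mul_sum]
    refine Finset.sum_congr rfl fun a _ => ?_
    rw [hW.symm a b, hW.symm a c]
    ring
  have hT3 : ∑ b, ∑ c, (1 - W b c) * cod W b c
      = ∑ b, ∑ c, cod W b c - ∑ b, ∑ c, W b c * cod W b c := by
    simp only [← Finset.sum_sub_distrib]
    refine Finset.sum_congr rfl fun b _ => Finset.sum_congr rfl fun c _ => ?_
    ring
  have hlow : ∑ b, ∑ c, (1 - W b c) * (N - hh W b - hh W c)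
      ≤ ∑ b, ∑ c, (1 - W b c) * cod W b c := by
    refine Finset.sum_le_sum fun b _ => Finset.sum_le_sum fun c _ => ?_
    exact mul_le_mul_of_nonneg_left (cod_ge hW b c) (by linarith [hW.le_one b c])
  have hlow2 : ∑ b, ∑ c, (1 - W b c) * (N - hh W b - hh W c)
      = N * ∑ x, hh W x - 2 * ∑ x, hh W x ^ 2 := by
    have e1 : ∀ b c, (1 - W b c) * (N - hh W b - hh W c)
        = (1 - W b c) * N - (1 - W b c) * hh W b - (1 - W b c) * hh W c := by
      intro b c; ring
    simp only [e1, Finset.sum_sub_distrib]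
    have e2 : ∑ b, ∑ c, (1 - W b c) * N = N * ∑ x, hh W x := by
      rw [Finset.mul_sum]
      refine Finset.sum_congr rfl fun b _ => ?_
      rw [← Finset.sum_mul, mul_comm]
      rfl
    have e3 : ∑ b, ∑ c, (1 - W b c) * hh W b = ∑ x, hh W x ^ 2 := by
      refine Finset.sum_congr rfl fun b _ => ?_
      rw [← Finset.sum_mul, sq]
      rfl
    have e4 : ∑ b, ∑ c, (1 - W b c) * hh W c = ∑ x, hh W x ^ 2 := by
      rw [Finset.sum_comm, ← e3]
      refine Finset.sum_congr rfl fun b _ => Finset.sum_congr rfl fun c _ => ?_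
      rw [hW.symm c b]
    rw [e2, e3, e4]
    ring
  have hdg : ∑ a, dg W a ^ 2 = ∑ x, (N - hh W x) ^ 2 :=
    Finset.sum_congr rfl fun x _ => by rw [dg_eq]
  have hfin : ∑ x, (N ^ 2 / 2 - 5 / 2 * N * hh W x + 7 / 2 * hh W x ^ 2)
      = (∑ x, (N - hh W x) ^ 2) / 2 - 3 / 2 * (N * ∑ x, hh W x - 2 * ∑ x, hh W x ^ 2) := by
    simp only [Finset.mul_sum, Finset.sum_div, ← Finset.sum_sub_distrib]
    refine Finset.sum_congr rfl fun x _ => ?_
    ring
  rw [hfin]
  unfold EE
  rw [hT2]
  have e0 : ∑ a, ∑ b, W a b * cod W a b * (1:ℝ) ^ 2 = ∑ b, ∑ c, W b c * cod W b c :=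
    Finset.sum_congr rfl fun a _ => Finset.sum_congr rfl fun b _ => by ring
  rw [e0]
  linarith

theorem G_le_half {W : V → V → ℝ} (hW : IsWeight W)
    (hh5 : ∀ x, hh W x ≤ (Fintype.card V : ℝ) / 5) (hn : 0 < (Fintype.card V : ℝ))
    (hm : ∑ x, ((Fintype.card V : ℝ) ^ 2 / 2 - 5 / 2 * (Fintype.card V : ℝ) * hh W x
      + 7 / 2 * hh W x ^ 2) ≤ 17 / 100 * (Fintype.card V : ℝ) ^ 3)
    {g : V → V → ℝ} (hg0 : ∀ x y, 0 ≤ g x y) (hgs : ∀ x y, g x y = g y x)
    (heq : ∀ x y, 0 < W x y →
        mm W g x y = max 0 (1 / 2 - GG W g x) + max 0 (1 / 2 - GG W g y)) :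
    ∀ x, GG W g x ≤ 1 / 2 := by
  classical
  by_contra hcon
  push Not at hcon
  obtain ⟨x0, hx0⟩ := hcon
  set N : ℝ := (Fintype.card V : ℝ) with hN
  obtain ⟨v, _, hv⟩ := Finset.exists_max_image Finset.univ (fun x => GG W g x)
    ⟨x0, Finset.mem_univ x0⟩
  have hGv : 1 / 2 < GG W g v := lt_of_lt_of_le hx0 (hv x0 (Finset.mem_univ _))
  set y : V → ℝ := fun x => max 0 (1 / 2 - GG W g x) with hy
  have hy0 : ∀ x, 0 ≤ y x := fun x => le_max_left _ _
  have hyv : y v = 0 := max_eq_left (by linarith)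
  have hyG : ∀ x, y x ≤ GG W g v - GG W g x := by
    intro x
    refine max_le ?_ ?_
    · linarith [hv x (Finset.mem_univ x)]
    · linarith
  have hyy : ∀ x, y x * GG W g x = y x * (1 / 2 - y x) := by
    intro x
    by_cases h : GG W g x ≤ 1 / 2
    · have : y x = 1 / 2 - GG W g x := max_eq_right (by linarith)
      rw [this]; ring
    · push Not at h
      have : y x = 0 := max_eq_left (by linarith)
      rw [this]; ring
  have hWm : ∀ x z, W x z * mm W g x z = W x z * (y x + y z) := by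
    intro x z
    rcases (hW.nonneg x z).lt_or_eq with h | h
    · rw [heq x z h]
    · rw [← h]; ring
  -- (I) the local inequality at v
  have hI : ∑ u, W v u * mm W g v u = ∑ u, W v u * y u := by
    refine Finset.sum_congr rfl fun u _ => ?_
    rw [hWm, hyv, zero_add]
  have hexp : ∑ u, W v u * mm W g v u
      = ∑ u, W v u * cod W v u * g v u
        - ∑ u, ∑ t, W v u * W v t * (1 - W u t) * g v t
        - ∑ u, ∑ t, W v u * W u t * (1 - W v t) * g u t := by
    simp only [← Finset.sum_sub_distrib]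
    refine Finset.sum_congr rfl fun u _ => ?_
    unfold mm
    rw [mul_sub, mul_sub, Finset.mul_sum, Finset.mul_sum]
    congr 1
    · congr 1
      · ring
      · exact Finset.sum_congr rfl fun c _ => by ring
    · exact Finset.sum_congr rfl fun c _ => by ring
  have hS2 : ∑ u, ∑ t, W v u * W v t * (1 - W u t) * g v t
      = ∑ t, W v t * g v t * (dg W v - cod W v t) := by
    rw [Finset.sum_comm]
    refine Finset.sum_congr rfl fun t _ => ?_
    rw [← sum_cherry, Finset.mul_sum]
    refine Finset.sum_congr rfl fun u _ => ?_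
    rw [hW.symm u t]
    ring
  have hS3 : ∑ u, ∑ t, W v u * W u t * (1 - W v t) * g u t
      ≤ ∑ t, (1 - W v t) * GG W g t := by
    rw [Finset.sum_comm]
    refine Finset.sum_le_sum fun t _ => ?_
    unfold GG
    rw [Finset.mul_sum]
    refine Finset.sum_le_sum fun u _ => ?_
    rw [hW.symm u t, hgs u t]
    have h1 : 0 ≤ W t u * (1 - W v t) * g t u :=
      mul_nonneg (mul_nonneg (hW.nonneg _ _) (by linarith [hW.le_one v t])) (hg0 _ _)
    have h2 := mul_le_mul_of_nonneg_right (hW.le_one v u) h1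
    calc W v u * W t u * (1 - W v t) * g t u = W v u * (W t u * (1 - W v t) * g t u) := by ring
      _ ≤ 1 * (W t u * (1 - W v t) * g t u) := h2
      _ = _ := by ring
  have hS4 : ∑ t, (1 - W v t) * GG W g t ≤ hh W v * GG W g v - ∑ t, (1 - W v t) * y t := by
    have : hh W v * GG W g v - ∑ t, (1 - W v t) * y t
        = ∑ t, (1 - W v t) * (GG W g v - y t) := by
      unfold hh
      rw [Finset.sum_mul, ← Finset.sum_sub_distrib]
      exact Finset.sum_congr rfl fun t _ => by ring
    rw [this]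
    refine Finset.sum_le_sum fun t _ => ?_
    exact mul_le_mul_of_nonneg_left (by linarith [hyG t]) (by linarith [hW.le_one v t])
  have hS5 : (3 / 5 * N - hh W v) * GG W g v
      ≤ ∑ u, (W v u * cod W v u * g v u - W v u * g v u * (dg W v - cod W v u)) := by
    unfold GG
    rw [Finset.mul_sum]
    refine Finset.sum_le_sum fun u _ => ?_
    have h1 : 0 ≤ W v u * g v u := mul_nonneg (hW.nonneg _ _) (hg0 _ _)
    have h2 : 3 / 5 * N - hh W v ≤ 2 * cod W v u - dg W v := by
      have := cod_ge hW v u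
      rw [dg_eq, ← hN]
      rw [← hN] at this
      linarith [hh5 u]
    have h3 := mul_le_mul_of_nonneg_right h2 h1
    calc (3 / 5 * N - hh W v) * (W v u * g v u) ≤ (2 * cod W v u - dg W v) * (W v u * g v u) := h3
      _ = _ := by ring
  rw [Finset.sum_sub_distrib] at hS5
  have hLoc : (3 / 5 * N - 2 * hh W v) * GG W g v ≤ ∑ u, (2 * W v u - 1) * y u := by
    have e : ∑ u, (2 * W v u - 1) * y u = ∑ u, W v u * y u - ∑ u, (1 - W v u) * y u := by
      rw [← Finset.sum_sub_distrib]
      exact Finset.sum_congr rfl fun u _ => by ring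
    rw [e, ← hI, hexp, hS2]
    linarith
  -- (II) the energy identity
  have hE1 : EE W g = ∑ x, y x * (1 / 2 - y x) := by
    have h1 := sum_mm hW hgs hgs
    have h2 : ∑ a, ∑ b, W a b * g a b * mm W g a b = 2 * ∑ x, y x * GG W g x := by
      have e1 : ∀ a b, W a b * g a b * mm W g a b = y a * (W a b * g a b) + y b * (W a b * g a b) := by
        intro a b
        calc W a b * g a b * mm W g a b = g a b * (W a b * mm W g a b) := by ring
          _ = g a b * (W a b * (y a + y b)) := by rw [hWm]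
          _ = _ := by ring
      simp only [e1, Finset.sum_add_distrib]
      have e2 : ∑ a, ∑ b, y a * (W a b * g a b) = ∑ x, y x * GG W g x := by
        refine Finset.sum_congr rfl fun a _ => ?_
        unfold GG
        rw [Finset.mul_sum]
      have e3 : ∑ a, ∑ b, y b * (W a b * g a b) = ∑ x, y x * GG W g x := by
        rw [Finset.sum_comm, ← e2]
        refine Finset.sum_congr rfl fun a _ => Finset.sum_congr rfl fun b _ => ?_
        rw [hW.symm b a, hgs b a]
      rw [e2, e3]; ring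
    have h3 : EE W g = (∑ a, ∑ b, W a b * g a b * mm W g a b) / 2 := by
      rw [h1]
      unfold EE
      have : ∑ a, ∑ b, W a b * cod W a b * (g a b * g a b)
          = ∑ a, ∑ b, W a b * cod W a b * g a b ^ 2 :=
        Finset.sum_congr rfl fun a _ => Finset.sum_congr rfl fun b _ => by ring
      rw [this]
      ring
    rw [h3, h2]
    rw [mul_div_cancel_left₀ _ (two_ne_zero)]
    exact Finset.sum_congr rfl fun x _ => hyy x
  have hE2 : ∑ a, ∑ b, W a b * (1:ℝ) * mm W g a b = 2 * ∑ x, dg W x * y x := by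
    have e1 : ∀ a b, W a b * (1:ℝ) * mm W g a b = W a b * y a + W a b * y b := by
      intro a b
      rw [mul_one, hWm]; ring
    simp only [e1, Finset.sum_add_distrib]
    have e2 : ∑ a, ∑ b, W a b * y a = ∑ x, dg W x * y x := by
      refine Finset.sum_congr rfl fun a _ => ?_
      unfold dg
      rw [Finset.sum_mul]
    have e3 : ∑ a, ∑ b, W a b * y b = ∑ x, dg W x * y x := by
      rw [Finset.sum_comm, ← e2]
      refine Finset.sum_congr rfl fun a _ => Finset.sum_congr rfl fun b _ => ?_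
      rw [hW.symm b a]
    rw [e2, e3]; ring
  have hone : EE W (fun _ _ => 1) ≤ 17 / 100 * N ^ 3 := (EE_one hW).trans hm
  have hpsd := EE_nonneg hW hh5 (f := fun a b => g a b + (-(47 / (100 * N))) * 1)
    (fun a b => by rw [hgs a b])
  rw [EE_add hW hgs (φ := fun _ _ => 1) (fun _ _ => rfl), hE1, hE2] at hpsd
  -- (III) combine
  have hcomb : ∑ x, (y x * (1 / 2 - y x) - 2 * (47 / (100 * N)) * (dg W x * y x)
        + (2 * W v x - 1) * y x / 2)
      ≤ ∑ x, 15376 / 1000000 * W v x := by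
    refine Finset.sum_le_sum fun x _ => ?_
    have hd : 4 / 5 * N ≤ dg W x := by
      rw [dg_eq, ← hN]; linarith [hh5 x]
    have hth : 47 / (100 * N) * dg W x ≥ 376 / 1000 := by
      have : 47 / (100 * N) * (4 / 5 * N) = 376 / 1000 := by
        field_simp; norm_num
      rw [← this]
      exact mul_le_mul_of_nonneg_left hd (by positivity)
    have hyx := hy0 x
    have hprod := mul_le_mul_of_nonneg_right hth hyx
    have hw0 := hW.nonneg v x
    have hw1 := hW.le_one v x
    have hk1 : 0 ≤ (1 - W v x) * W v x := mul_nonneg (by linarith) hw0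
    have hk2 : 0 ≤ y x * (1 - W v x) := mul_nonneg hyx (by linarith)
    nlinarith [sq_nonneg (y x - 124 / 1000 * W v x)]
  have hsplit : ∑ x, (y x * (1 / 2 - y x) - 2 * (47 / (100 * N)) * (dg W x * y x)
        + (2 * W v x - 1) * y x / 2)
      = ∑ x, y x * (1 / 2 - y x) - 2 * (47 / (100 * N)) * ∑ x, dg W x * y x
        + (∑ x, (2 * W v x - 1) * y x) / 2 := by
    rw [Finset.mul_sum, Finset.sum_div, ← Finset.sum_sub_distrib, ← Finset.sum_add_distrib]
  rw [hsplit, ← Finset.mul_sum] at hcomb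
  have hdv : ∑ x, W v x = N - hh W v := by
    have := dg_eq W v
    unfold dg at this
    rw [this]
  rw [hdv] at hcomb
  have hth2 : (-(47 / (100 * N))) ^ 2 * EE W (fun _ _ => 1) ≤ 37553 / 1000000 * N := by
    have h1 : (-(47 / (100 * N))) ^ 2 * EE W (fun _ _ => 1)
        ≤ (-(47 / (100 * N))) ^ 2 * (17 / 100 * N ^ 3) :=
      mul_le_mul_of_nonneg_left hone (sq_nonneg _)
    have h2 : (-(47 / (100 * N))) ^ 2 * (17 / 100 * N ^ 3) = 37553 / 1000000 * N := by
      field_simp; norm_num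
    linarith
  have hloc2 : (3 / 5 * N - 2 * hh W v) * (1 / 2) ≤ (3 / 5 * N - 2 * hh W v) * GG W g v :=
    mul_le_mul_of_nonneg_left hGv.le (by linarith [hh5 v])
  have hhv := hh5 v
  linarith

end Pool.Agent.Lib.MP_24b5ff_co
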