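import Mathlib

/-!
# The blow-up of `C₄` has no fractional triangle decomposition
-/

namespace Pool.Agent.Lib.MP_24b5ff_co

open Finset

/-- The blow-up of the 4-cycle: four cliques of size `m`, consecutive ones completely joined. -/
def blowC4 (m : ℕ) : SimpleGraph (Fin 4 × Fin m) where
  Adj x y := x ≠ y ∧ x.1 ≠ y.1 + 2
  symm := ⟨fun x y h => ⟨h.1.symm, fun h' => h.2 (by
    rw [h', add_assoc]
    have : (2 + 2 : Fin 4) = 0 := rfl
    rw [this, add_zero])⟩⟩
  loopless := ⟨fun x h => h.1 rfl⟩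

instance (m : ℕ) : DecidableRel (blowC4 m).Adj := fun x y =>
  inferInstanceAs (Decidable (x ≠ y ∧ x.1 ≠ y.1 + 2))

theorem blowC4_adj (m : ℕ) (x y : Fin 4 × Fin m) :
    (blowC4 m).Adj x y ↔ x ≠ y ∧ x.1 ≠ y.1 + 2 := Iff.rfl

theorem sum_same {m : ℕ} (a : Fin m) (c : ℝ) :
    ∑ b : Fin m, (if a = b then 0 else c) = (m - 1) * c := by
  have h : ∀ b : Fin m, (if a = b then 0 else c) = c - (if a = b then c else 0) := by
    intro b; split_ifs <;> ring
  simp only [h]
  rw [Finset.sum_sub_distrib, Finset.sum_ite_eq Finset.univ a]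
  simp
  ring

/-- row sums for a two-valued weight -/
theorem row_sum (m : ℕ) (x : Fin 4 × Fin m) (α β : ℝ) :
    ∑ y, (if (blowC4 m).Adj x y then (if x.1 = y.1 then α else β) else 0)
      = (m - 1) * α + 2 * m * β := by
  obtain ⟨i, a⟩ := x
  rw [Fintype.sum_prod_type, Fin.sum_univ_four]
  simp only [blowC4_adj]
  fin_cases i <;> simp [Prod.ext_iff, sum_same] <;> ring

theorem degree_blowC4 (m : ℕ) (x : Fin 4 × Fin m) :
    ((blowC4 m).degree x : ℝ) = 3 * m - 1 := by
  have h := row_sum m x 1 1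
  simp only [ite_self] at h
  rw [Finset.sum_boole] at h
  have h2 : (blowC4 m).degree x = (Finset.univ.filter fun y => (blowC4 m).Adj x y).card := by
    rw [← SimpleGraph.card_neighborFinset_eq_degree]
    congr 1
    ext y
    simp
  rw [h2, h]
  ring

theorem degree_blowC4_nat (k : ℕ) (x : Fin 4 × Fin (6 * k + 3)) :
    (blowC4 (6 * k + 3)).degree x = 18 * k + 8 := by
  have h := degree_blowC4 (6 * k + 3) x
  have : ((blowC4 (6 * k + 3)).degree x : ℝ) = ((18 * k + 8 : ℕ) : ℝ) := by
    rw [h]; push_cast; ring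
  exact_mod_cast this

theorem card_edges_blowC4 (k : ℕ) :
    3 ∣ (blowC4 (6 * k + 3)).edgeFinset.card := by
  have h := (blowC4 (6 * k + 3)).sum_degrees_eq_twice_card_edges
  simp only [degree_blowC4_nat, Finset.sum_const, Finset.card_univ, Fintype.card_prod,
    Fintype.card_fin, smul_eq_mul] at h
  have h2 : (blowC4 (6 * k + 3)).edgeFinset.card = 3 * (4 * (2 * k + 1) * (9 * k + 4)) := by
    nlinarith
  rw [h2]
  exact dvd_mul_right _ _

/-- the dual certificate -/
def cert {m : ℕ} (x y : Fin 4 × Fin m) : ℝ := if x.1 = y.1 then 2 else -1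

theorem cert_tri {m : ℕ} (x y z : Fin 4 × Fin m) (hxy : (blowC4 m).Adj x y)
    (hyz : (blowC4 m).Adj y z) (hxz : (blowC4 m).Adj x z) :
    0 ≤ cert x y + cert y z + cert x z := by
  obtain ⟨i, a⟩ := x
  obtain ⟨j, b⟩ := y
  obtain ⟨k, c⟩ := z
  have h1 := hxy.2
  have h2 := hyz.2
  have h3 := hxz.2
  have key : ∀ i j k : Fin 4, i ≠ j + 2 → j ≠ k + 2 → i ≠ k + 2 →
      (0:ℤ) ≤ (if i = j then 2 else -1) + (if j = k then 2 else -1) + (if i = k then 2 else -1) := by
    decide
  have := key i j k h1 h2 h3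
  unfold cert
  simp only
  have h4 : ((0:ℤ):ℝ) ≤ (((if i = j then 2 else -1) + (if j = k then 2 else -1) +
      (if i = k then 2 else -1) : ℤ) : ℝ) := by exact_mod_cast this
  push_cast at h4
  convert h4

theorem no_decomp (m : ℕ) (hm : 0 < m) (ω : Finset (Fin 4 × Fin m) → ℝ)
    (h0 : ∀ T ∈ (blowC4 m).cliqueFinset 3, 0 ≤ ω T)
    (h1 : ∀ x y, (blowC4 m).Adj x y →
      ∑ T ∈ (blowC4 m).cliqueFinset 3 with x ∈ T ∧ y ∈ T, ω T = 1) : False := by
  have e1 : ∑ x, ∑ y, (if (blowC4 m).Adj x y then cert x y *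
      (∑ T ∈ (blowC4 m).cliqueFinset 3 with x ∈ T ∧ y ∈ T, ω T) else 0) = -(8 * m : ℝ) := by
    have e2 : ∀ x y, (if (blowC4 m).Adj x y then cert x y *
        (∑ T ∈ (blowC4 m).cliqueFinset 3 with x ∈ T ∧ y ∈ T, ω T) else 0)
        = (if (blowC4 m).Adj x y then (if x.1 = y.1 then 2 else -1) else 0) := by
      intro x y
      split_ifs with h h'
      · rw [h1 x y h]; simp [cert, h']
      · rw [h1 x y h]; simp [cert, h']
      · rfl
    simp only [e2, row_sum]
    simp only [Finset.sum_const, Finset.card_univ, Fintype.card_prod, Fintype.card_fin,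
      nsmul_eq_mul]
    push_cast
    ring
  have e3 : ∑ x, ∑ y, (if (blowC4 m).Adj x y then cert x y *
      (∑ T ∈ (blowC4 m).cliqueFinset 3 with x ∈ T ∧ y ∈ T, ω T) else 0)
      = ∑ T ∈ (blowC4 m).cliqueFinset 3, ω T *
        ∑ x ∈ T, ∑ y ∈ T, (if (blowC4 m).Adj x y then cert x y else 0) := by
    have e4 : ∀ x y, (if (blowC4 m).Adj x y then cert x y *
        (∑ T ∈ (blowC4 m).cliqueFinset 3 with x ∈ T ∧ y ∈ T, ω T) else 0)
        = ∑ T ∈ (blowC4 m).cliqueFinset 3, (if x ∈ T then (if y ∈ T then ω T *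
          (if (blowC4 m).Adj x y then cert x y else 0) else 0) else 0) := by
      intro x y
      rw [Finset.sum_filter]
      split_ifs with h
      · rw [Finset.mul_sum]
        refine Finset.sum_congr rfl fun T _ => ?_
        by_cases hx : x ∈ T <;> by_cases hy : y ∈ T <;> simp [hx, hy, mul_comm]
      · symm
        refine Finset.sum_eq_zero fun T _ => by simp
    simp only [e4]
    have e5 : ∀ x, ∑ y, ∑ T ∈ (blowC4 m).cliqueFinset 3, (if x ∈ T then (if y ∈ T then ω T *
          (if (blowC4 m).Adj x y then cert x y else 0) else 0) else 0)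
        = ∑ T ∈ (blowC4 m).cliqueFinset 3, ∑ y, (if x ∈ T then (if y ∈ T then ω T *
          (if (blowC4 m).Adj x y then cert x y else 0) else 0) else 0) :=
      fun x => Finset.sum_comm
    simp only [e5]
    rw [Finset.sum_comm]
    refine Finset.sum_congr rfl fun T _ => ?_
    rw [Finset.mul_sum, ← Finset.sum_filter_add_sum_filter_not Finset.univ (fun x => x ∈ T)]
    have e6 : ∑ x ∈ Finset.univ.filter (fun x => ¬ x ∈ T), ∑ y, (if x ∈ T then (if y ∈ T then
        ω T * (if (blowC4 m).Adj x y then cert x y else 0) else 0) else 0) = 0 := by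
      refine Finset.sum_eq_zero fun x hx => ?_
      have hx' := (Finset.mem_filter.mp hx).2
      simp [hx']
    rw [e6, add_zero]
    have e7 : Finset.univ.filter (fun x => x ∈ T) = T := by ext x; simp
    rw [e7]
    refine Finset.sum_congr rfl fun x hx => ?_
    simp only [hx, if_true]
    rw [Finset.mul_sum, ← Finset.sum_filter, e7]
  have e8 : 0 ≤ ∑ T ∈ (blowC4 m).cliqueFinset 3, ω T *
        ∑ x ∈ T, ∑ y ∈ T, (if (blowC4 m).Adj x y then cert x y else 0) := by
    refine Finset.sum_nonneg fun T hT => mul_nonneg (h0 T hT) ?_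
    rw [SimpleGraph.mem_cliqueFinset_iff, SimpleGraph.is3Clique_iff] at hT
    obtain ⟨x, y, z, hxy, hxz, hyz, rfl⟩ := hT
    have e : ∀ f : Fin 4 × Fin m → ℝ, ∑ a ∈ ({x, y, z} : Finset (Fin 4 × Fin m)), f a
        = f x + f y + f z := by
      intro f
      rw [Finset.sum_insert (by simp [hxy.ne, hxz.ne]), Finset.sum_insert (by simp [hyz.ne]),
        Finset.sum_singleton]
      ring
    have cs : ∀ a b : Fin 4 × Fin m, cert a b = cert b a := by
      intro a b
      unfold cert
      exact if_congr eq_comm rfl rfl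
    simp only [e, hxy, hyz, hxz, hxy.symm, hyz.symm, hxz.symm, SimpleGraph.irrefl, if_true,
      if_false]
    have := cert_tri x y z hxy hyz hxz
    rw [cs y x, cs z x, cs z y]
    linarith
  rw [e3] at e1
  have hm' : (0:ℝ) < m := by exact_mod_cast hm
  linarith

end Pool.Agent.Lib.MP_24b5ff_co
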