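import Pool.Agent.Lib.MP_24b5ff_co.Weighted

/-!
# Existence of the vertex-potential solution
-/

namespace Pool.Agent.Lib.MP_24b5ff_co

open Finset

variable {V : Type*} [Fintype V]

theorem exists_min (W : V → V → ℝ) (R : ℝ) (hR : 0 ≤ R) :
    ∃ g : V → V → ℝ, (∀ x y, 0 ≤ g x y ∧ g x y ≤ R) ∧ (∀ x y, g x y = g y x) ∧
      ∀ g' : V → V → ℝ, (∀ x y, 0 ≤ g' x y ∧ g' x y ≤ R) → (∀ x y, g' x y = g' y x) →
        Psi W g ≤ Psi W g' := by
  classical
  let C : Set (V → V → ℝ) :=
    (Set.univ.pi fun _ => Set.univ.pi fun _ => Set.Icc (0:ℝ) R) ∩ {g | ∀ x y, g x y = g y x}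
  have hK : IsCompact (Set.univ.pi fun _ : V => Set.univ.pi fun _ : V => Set.Icc (0:ℝ) R) :=
    isCompact_univ_pi fun _ => isCompact_univ_pi fun _ => isCompact_Icc
  have hcl : IsClosed {g : V → V → ℝ | ∀ x y, g x y = g y x} := by
    have : {g : V → V → ℝ | ∀ x y, g x y = g y x}
        = ⋂ x, ⋂ y, {g : V → V → ℝ | g x y = g y x} := by
      ext g; simp
    rw [this]
    refine isClosed_iInter fun x => isClosed_iInter fun y => ?_
    exact isClosed_eq (by fun_prop) (by fun_prop)
  have hC : IsCompact C := hK.inter_right hcl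
  have hne : C.Nonempty := by
    refine ⟨fun _ _ => 0, ?_, ?_⟩
    · intro x _ y _
      exact ⟨le_refl _, hR⟩
    · intro x y
      rfl
  have hcont : Continuous (Psi W) := by
    unfold Psi EE GG
    fun_prop
  obtain ⟨g, hg, hmin⟩ := hC.exists_isMinOn hne hcont.continuousOn
  refine ⟨g, fun x y => ?_, hg.2, fun g' h1 h2 => ?_⟩
  · have := hg.1 x (Set.mem_univ x) y (Set.mem_univ y)
    exact this
  · exact hmin ⟨fun x _ y _ => h1 x y, h2⟩

theorem deriv_nonneg {D C t0 : ℝ} (ht0 : 0 < t0)
    (h : ∀ t, 0 < t → t ≤ t0 → 0 ≤ t * D + t ^ 2 * C) : 0 ≤ D := by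
  by_contra hD
  push Not at hD
  set t := min t0 (-D / (2 * (|C| + 1))) with ht
  have hc : 0 < |C| + 1 := by positivity
  have h1 : 0 < -D / (2 * (|C| + 1)) := div_pos (by linarith) (by linarith)
  have htp : 0 < t := lt_min ht0 h1
  have h2 := h t htp (min_le_left _ _)
  have h3 : t ≤ -D / (2 * (|C| + 1)) := min_le_right _ _
  have h4 : t * (2 * (|C| + 1)) ≤ -D := by
    rwa [le_div_iff₀ (by linarith)] at h3
  have h5 : t * C ≤ t * |C| := mul_le_mul_of_nonneg_left (le_abs_self C) htp.le
  have h6 : t * D + t ^ 2 * C = t * (D + t * C) := by ring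
  rw [h6] at h2
  have h7 : 0 ≤ D + t * C := by
    by_contra hneg
    push Not at hneg
    have := mul_neg_of_pos_of_neg htp hneg
    linarith
  nlinarith [abs_nonneg C]

theorem exists_sol {W : V → V → ℝ} (hW : IsWeight W)
    (hh5 : ∀ x, hh W x ≤ (Fintype.card V : ℝ) / 5) (hn : 0 < (Fintype.card V : ℝ)) :
    ∃ g : V → V → ℝ, (∀ x y, 0 ≤ g x y) ∧ (∀ x y, g x y = g y x) ∧
      ∀ x y, 0 < W x y →
        mm W g x y = max 0 (1 / 2 - GG W g x) + max 0 (1 / 2 - GG W g y) := by
  classical
  set N : ℝ := (Fintype.card V : ℝ) with hN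
  obtain ⟨g, hb, hs, hmin⟩ := exists_min W (6 / N) (by positivity)
  refine ⟨g, fun x y => (hb x y).1, hs, ?_⟩
  intro x y hxy
  have hne : x ≠ y := by
    rintro rfl
    rw [hW.diag] at hxy
    exact lt_irrefl _ hxy
  have hdl : ∀ a b, dl x y a b = if (a = x ∧ b = y) ∨ (a = y ∧ b = x) then 1 else 0 := by
    intro a b
    unfold dl
    by_cases h1 : a = x ∧ b = y
    · have h2 : ¬ (a = y ∧ b = x) := fun h => hne (h1.1.symm.trans h.1)
      simp [h1, hne]
    · by_cases h2 : a = y ∧ b = x
      · simp [h2, hne.symm]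
      · simp [h1, h2]
  have hgn : ∀ x, 0 ≤ GG W g x := fun x =>
    Finset.sum_nonneg fun z _ => mul_nonneg (hW.nonneg x z) (hb x z).1
  have hy1 : ∀ x, 0 ≤ max 0 (1 / 2 - GG W g x) := fun x => le_max_left _ _
  have hy2 : ∀ x, max 0 (1 / 2 - GG W g x) ≤ 1 / 2 := fun x =>
    max_le (by norm_num) (by linarith [hgn x])
  set D := W x y * (mm W g x y - max 0 (1 / 2 - GG W g x) - max 0 (1 / 2 - GG W g y)) with hD
  have key : ∀ t : ℝ, (∀ a b, (a = x ∧ b = y) ∨ (a = y ∧ b = x) →
      0 ≤ g a b + t ∧ g a b + t ≤ 6 / N) →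
      0 ≤ t * D + t ^ 2 * (EE W (dl x y) / 2 + (∑ z, GG W (dl x y) z ^ 2) / 2) := by
    intro t ht
    have h1 := Psi_add_le hW (g := g) (φ := dl x y) hs (dl_symm x y) t
    rw [pert_deriv hW hs x y] at h1
    have h2 := hmin (fun a b => g a b + t * dl x y a b) (fun a b => by
      rw [hdl]
      by_cases h : (a = x ∧ b = y) ∨ (a = y ∧ b = x)
      · rw [if_pos h]
        simpa using ht a b h
      · rw [if_neg h]
        simpa using hb a b) (fun a b => by rw [hs a b, dl_symm x y a b])
    linarith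
  have up : g x y < 6 / N → 0 ≤ D := by
    intro hlt
    refine deriv_nonneg (t0 := 6 / N - g x y) (by linarith)
      (C := EE W (dl x y) / 2 + (∑ z, GG W (dl x y) z ^ 2) / 2) fun t ht1 ht2 => ?_
    refine key t ?_
    rintro a b (⟨rfl, rfl⟩ | ⟨rfl, rfl⟩)
    · exact ⟨by linarith [(hb a b).1], by linarith⟩
    · rw [hs a b]
      exact ⟨by linarith [(hb b a).1], by linarith⟩
  have down : 0 < g x y → D ≤ 0 := by
    intro hlt
    have : 0 ≤ -D := by
      refine deriv_nonneg (t0 := g x y) hlt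
        (C := EE W (dl x y) / 2 + (∑ z, GG W (dl x y) z ^ 2) / 2) fun t ht1 ht2 => ?_
      have := key (-t) (by
        rintro a b (⟨rfl, rfl⟩ | ⟨rfl, rfl⟩)
        · exact ⟨by linarith, by linarith [(hb a b).2]⟩
        · rw [hs a b]
          exact ⟨by linarith, by linarith [(hb b a).2]⟩)
      nlinarith
    linarith
  have hs1 : 0 ≤ ∑ z, W x z * (1 - W y z) * g x z :=
    Finset.sum_nonneg fun z _ => mul_nonneg (mul_nonneg (hW.nonneg x z)
      (by linarith [hW.le_one y z])) (hb x z).1
  have hs2 : 0 ≤ ∑ z, W y z * (1 - W x z) * g y z :=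
    Finset.sum_nonneg fun z _ => mul_nonneg (mul_nonneg (hW.nonneg y z)
      (by linarith [hW.le_one x z])) (hb y z).1
  rcases lt_or_ge (g x y) (6 / N) with hlt | hge
  · have hu := up hlt
    have hu' : 0 ≤ mm W g x y - max 0 (1 / 2 - GG W g x) - max 0 (1 / 2 - GG W g y) := by
      by_contra hneg
      push Not at hneg
      have := mul_neg_of_pos_of_neg hxy hneg
      linarith
    rcases (hb x y).1.lt_or_eq with hpos | hzero
    · have hd := down hpos
      have hd' : mm W g x y - max 0 (1 / 2 - GG W g x) - max 0 (1 / 2 - GG W g y) ≤ 0 := by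
        by_contra hneg
        push Not at hneg
        have := mul_pos hxy hneg
        linarith
      linarith
    · have hm : mm W g x y ≤ 0 := by
        unfold mm
        rw [← hzero]
        linarith
      have h1 := hy1 x
      have h2 := hy1 y
      linarith
  · exfalso
    have heq : g x y = 6 / N := le_antisymm (hb x y).2 hge
    have hd := down (by rw [heq]; positivity)
    have hd' : mm W g x y - max 0 (1 / 2 - GG W g x) - max 0 (1 / 2 - GG W g y) ≤ 0 := by
      by_contra hneg
      push Not at hneg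
      have := mul_pos hxy hneg
      linarith
    have hmge : 6 / N * (cod W x y - (dg W x - cod W x y) - (dg W y - cod W x y)) ≤ mm W g x y := by
      unfold mm
      have e1 : ∑ z, W x z * (1 - W y z) * g x z ≤ 6 / N * (dg W x - cod W x y) := by
        rw [← sum_cherry, Finset.mul_sum]
        refine Finset.sum_le_sum fun z _ => ?_
        have : 0 ≤ W x z * (1 - W y z) := mul_nonneg (hW.nonneg x z) (by linarith [hW.le_one y z])
        rw [mul_comm (6 / N)]
        exact mul_le_mul_of_nonneg_left (hb x z).2 this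
      have e2 : ∑ z, W y z * (1 - W x z) * g y z ≤ 6 / N * (dg W y - cod W x y) := by
        rw [cod_symm W x y, ← sum_cherry, Finset.mul_sum]
        refine Finset.sum_le_sum fun z _ => ?_
        have : 0 ≤ W y z * (1 - W x z) := mul_nonneg (hW.nonneg y z) (by linarith [hW.le_one x z])
        rw [mul_comm (6 / N)]
        exact mul_le_mul_of_nonneg_left (hb y z).2 this
      rw [heq]
      linarith
    have hc := cod_ge hW x y
    rw [dg_eq, dg_eq] at hmge
    have h5x := hh5 x
    have h5y := hh5 y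
    have hlow : N / 5 ≤ cod W x y - ((Fintype.card V : ℝ) - hh W x - cod W x y)
        - ((Fintype.card V : ℝ) - hh W y - cod W x y) := by
      rw [← hN] at hc ⊢
      linarith
    have h65 : 6 / N * (N / 5) = 6 / 5 := by field_simp
    have hmul := mul_le_mul_of_nonneg_left hlow (show 0 ≤ 6 / N by positivity)
    rw [h65] at hmul
    have h1 := hy2 x
    have h2 := hy2 y
    linarith

end Pool.Agent.Lib.MP_24b5ff_co
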