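import Pool.Agent.Lib.MP_24b5ff_co.Duality

/-!
# The pairwise inequality and the dual statement at minimum degree `3n/4`
-/

namespace Pool.Agent.Lib.MP_24b5ff_co

open Finset

variable {V : Type*} [Fintype V] [DecidableEq V]

/-- the multiplier of a matching edge -/
noncomputable def mult (p : V → ℝ) (x y : V) : ℝ := max (-(p x + p y)) (max (p x) (p y))

/-- weight, extended by `0` to non-edges -/
def wt (G : SimpleGraph V) [DecidableRel G.Adj] (w : V → V → ℝ) (x y : V) : ℝ :=
  if G.Adj x y then w x y else 0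

/-- indicator of non-adjacency (a vertex is not adjacent to itself) -/
def nonadj (G : SimpleGraph V) [DecidableRel G.Adj] (x y : V) : ℝ :=
  if G.Adj x y then 0 else 1

omit [Fintype V] [DecidableEq V] in
theorem mult_nonneg (p : V → ℝ) (x y : V) : 0 ≤ mult p x y := by
  have h1 : -(p x + p y) ≤ mult p x y := le_max_left _ _
  have h2 : p x ≤ mult p x y := (le_max_left _ _).trans (le_max_right _ _)
  have h3 : p y ≤ mult p x y := (le_max_right _ _).trans (le_max_right _ _)
  linarith

omit [Fintype V] [DecidableEq V] in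
/-- **Pairwise inequality.** -/
theorem pairwise (G : SimpleGraph V) [DecidableRel G.Adj] {w : V → V → ℝ}
    (htri : ∀ x y z, G.Adj x y → G.Adj y z → G.Adj x z → 0 ≤ w x y + w y z + w x z)
    {p : V → ℝ} (hp : ∀ x y, G.Adj x y → p x + p y ≤ w x y) {x y t u : V}
    (hxy : G.Adj x y) (htu : G.Adj t u) (exy : p x + p y = w x y) (etu : p t + p u = w t u) :
    (mult p x y + mult p t u) *
        (1 - (nonadj G x t + nonadj G x u + nonadj G y t + nonadj G y u)) ≤
      wt G w x t + wt G w x u + wt G w y t + wt G w y u := by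
  have a1 : -(p x + p y) ≤ mult p x y := le_max_left _ _
  have a2 : p x ≤ mult p x y := (le_max_left _ _).trans (le_max_right _ _)
  have a3 : p y ≤ mult p x y := (le_max_right _ _).trans (le_max_right _ _)
  have b1 : -(p t + p u) ≤ mult p t u := le_max_left _ _
  have b2 : p t ≤ mult p t u := (le_max_left _ _).trans (le_max_right _ _)
  have b3 : p u ≤ mult p t u := (le_max_right _ _).trans (le_max_right _ _)
  have T1 : G.Adj x t → G.Adj y t → 0 ≤ w x y + w y t + w x t := fun h1 h2 => htri x y t hxy h2 h1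
  have T2 : G.Adj x u → G.Adj y u → 0 ≤ w x y + w y u + w x u := fun h1 h2 => htri x y u hxy h2 h1
  have T3 : G.Adj x t → G.Adj x u → 0 ≤ w x t + w t u + w x u := fun h1 h2 => htri x t u h1 htu h2
  have T4 : G.Adj y t → G.Adj y u → 0 ≤ w y t + w t u + w y u := fun h1 h2 => htri y t u h1 htu h2
  by_cases hxt : G.Adj x t <;> by_cases hxu : G.Adj x u <;> by_cases hyt : G.Adj y t <;>
    by_cases hyu : G.Adj y u <;> simp only [wt, nonadj, hxt, hxu, hyt, hyu, if_true, if_false]
  · -- all four
    have c1 := hp x t hxt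
    have c2 := hp x u hxu
    have c3 := hp y t hyt
    have c4 := hp y u hyu
    have d1 := T1 hxt hyt
    have d2 := T2 hxu hyu
    have d3 := T3 hxt hxu
    have d4 := T4 hyt hyu
    have m1 : mult p x y ≤ (w x t + w x u + w y t + w y u) / 2 :=
      max_le (by linarith) (max_le (by linarith) (by linarith))
    have m2 : mult p t u ≤ (w x t + w x u + w y t + w y u) / 2 :=
      max_le (by linarith) (max_le (by linarith) (by linarith))
    linarith
  · -- missing yu
    have d1 := T1 hxt hyt
    have d3 := T3 hxt hxu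
    have c2 := hp x u hxu
    have c3 := hp y t hyt
    linarith
  · -- missing yt
    have d2 := T2 hxu hyu
    have d3 := T3 hxt hxu
    have c1 := hp x t hxt
    have c4 := hp y u hyu
    linarith
  · -- missing yt, yu
    have d3 := T3 hxt hxu
    have c1 := hp x t hxt
    have c2 := hp x u hxu
    linarith
  · -- missing xu
    have d1 := T1 hxt hyt
    have d4 := T4 hyt hyu
    have c1 := hp x t hxt
    have c4 := hp y u hyu
    linarith
  · -- missing xu, yu
    have d1 := T1 hxt hyt
    have c1 := hp x t hxt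
    have c3 := hp y t hyt
    linarith
  · -- missing xu, yt
    have c1 := hp x t hxt
    have c4 := hp y u hyu
    linarith
  · -- only xt
    have c1 := hp x t hxt
    linarith
  · -- missing xt
    have d2 := T2 hxu hyu
    have d4 := T4 hyt hyu
    have c2 := hp x u hxu
    have c3 := hp y t hyt
    linarith
  · -- missing xt, yu
    have c2 := hp x u hxu
    have c3 := hp y t hyt
    linarith
  · -- missing xt, yt
    have d2 := T2 hxu hyu
    have c2 := hp x u hxu
    have c4 := hp y u hyu
    linarith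
  · -- only xu
    have c2 := hp x u hxu
    linarith
  · -- missing xt, xu
    have d4 := T4 hyt hyu
    have c3 := hp y t hyt
    have c4 := hp y u hyu
    linarith
  · -- only yt
    have c3 := hp y t hyt
    linarith
  · -- only yu
    have c4 := hp y u hyu
    linarith
  · linarith

omit [DecidableEq V] in
theorem sum_nonadj (G : SimpleGraph V) [DecidableRel G.Adj] (x : V) :
    ∑ y, nonadj G x y = (Fintype.card V : ℝ) - G.degree x := by
  have h1 : ∀ y, nonadj G x y = 1 - (if G.Adj x y then (1:ℝ) else 0) := by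
    intro y; unfold nonadj; split_ifs <;> ring
  simp only [h1]
  rw [Finset.sum_sub_distrib, Finset.sum_boole]
  simp only [Finset.sum_const, Finset.card_univ, nsmul_eq_mul, mul_one]
  congr 2
  rw [← G.card_neighborFinset_eq_degree]
  congr 1
  ext y
  simp

/-- **Dual statement at minimum degree `3n/4`.** -/
theorem dual_nonneg (G : SimpleGraph V) [DecidableRel G.Adj]
    (hG : ∀ v, 3 * Fintype.card V ≤ 4 * G.degree v) (w : V → V → ℝ)
    (hw : ∀ x y, w x y = w y x)
    (htri : ∀ x y z, G.Adj x y → G.Adj y z → G.Adj x z → 0 ≤ w x y + w y z + w x z) :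
    0 ≤ ∑ x, ∑ y, if G.Adj x y then w x y else 0 := by
  obtain ⟨l, p, ls, l0, lo, lr, hp, he⟩ :=
    exists_matching_potential G (fun v => by have := hG v; omega) w hw
  have lr' : ∀ y, ∑ x, l x y = 1 := fun y => by
    rw [← lr y]; exact Finset.sum_congr rfl fun x _ => ls x y
  -- sums against `l`
  have s1 : ∀ f : V → ℝ, ∑ q : V × V, l q.1 q.2 * f q.1 = ∑ x, f x := by
    intro f
    rw [Fintype.sum_prod_type]
    refine Finset.sum_congr rfl fun x _ => ?_
    simp only
    rw [← Finset.sum_mul, lr, one_mul]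
  have s2 : ∀ f : V → ℝ, ∑ q : V × V, l q.1 q.2 * f q.2 = ∑ x, f x := by
    intro f
    rw [Fintype.sum_prod_type, Finset.sum_comm]
    refine Finset.sum_congr rfl fun x _ => ?_
    simp only
    rw [← Finset.sum_mul, lr', one_mul]
  set L : V × V → ℝ := fun q => l q.1 q.2 with hL
  set B : V × V → ℝ := fun q => mult p q.1 q.2 with hB
  set K : V × V → V × V → ℝ := fun q r =>
    nonadj G q.1 r.1 + nonadj G q.1 r.2 + nonadj G q.2 r.1 + nonadj G q.2 r.2 with hK
  set W : V × V → V × V → ℝ := fun q r =>
    wt G w q.1 r.1 + wt G w q.1 r.2 + wt G w q.2 r.1 + wt G w q.2 r.2 with hW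
  have h1 : ∀ q r, L q * L r * ((B q + B r) * (1 - K q r)) ≤ L q * L r * W q r := by
    intro q r
    rcases (l0 q.1 q.2).eq_or_lt with h | h
    · simp [hL, ← h]
    rcases (l0 r.1 r.2).eq_or_lt with h' | h'
    · simp [hL, ← h']
    have adj_of : ∀ a b, 0 < l a b → G.Adj a b := by
      intro a b hab
      by_contra hn
      rw [lo a b hn] at hab
      exact lt_irrefl _ hab
    refine mul_le_mul_of_nonneg_left ?_ (mul_nonneg h.le h'.le)
    exact pairwise G htri hp (adj_of _ _ h) (adj_of _ _ h') (he _ _ h) (he _ _ h')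
  have h2 : ∑ q, ∑ r, L q * L r * W q r = 4 * ∑ x, ∑ y, wt G w x y := by
    have e1 : ∀ q, ∑ r, L q * L r * W q r
        = L q * (2 * ∑ y, wt G w q.1 y) + L q * (2 * ∑ y, wt G w q.2 y) := by
      intro q
      have e2 : ∑ r, L q * L r * W q r = L q * (∑ r : V × V, l r.1 r.2 * wt G w q.1 r.1
          + ∑ r : V × V, l r.1 r.2 * wt G w q.1 r.2 + ∑ r : V × V, l r.1 r.2 * wt G w q.2 r.1
          + ∑ r : V × V, l r.1 r.2 * wt G w q.2 r.2) := by
        rw [← Finset.sum_add_distrib, ← Finset.sum_add_distrib, ← Finset.sum_add_distrib,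
          Finset.mul_sum]
        refine Finset.sum_congr rfl fun r _ => ?_
        simp only [hL, hW]
        ring
      rw [e2, s1 (fun y => wt G w q.1 y), s2 (fun y => wt G w q.1 y),
        s1 (fun y => wt G w q.2 y), s2 (fun y => wt G w q.2 y)]
      ring
    simp only [e1, Finset.sum_add_distrib]
    rw [s1 (fun x => 2 * ∑ y, wt G w x y), s2 (fun x => 2 * ∑ y, wt G w x y), ← Finset.mul_sum]
    ring
  have h3 : 0 ≤ ∑ q, ∑ r, L q * L r * ((B q + B r) * (1 - K q r)) := by
    have Ks : ∀ q r, K q r = K r q := by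
      have ns : ∀ a b, nonadj G a b = nonadj G b a := by
        intro a b
        unfold nonadj
        exact if_congr (G.adj_comm a b) rfl rfl
      intro q r
      simp only [hK]
      rw [ns q.1 r.1, ns q.1 r.2, ns q.2 r.1, ns q.2 r.2]
      ring
    have e1 : ∑ q, ∑ r, L q * L r * ((B q + B r) * (1 - K q r))
        = ∑ q, ∑ r, L q * L r * (B q * (1 - K q r))
          + ∑ q, ∑ r, L r * L q * (B q * (1 - K r q)) := by
      rw [Finset.sum_comm (f := fun q r => L r * L q * (B q * (1 - K r q))),
        ← Finset.sum_add_distrib]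
      refine Finset.sum_congr rfl fun q _ => ?_
      rw [← Finset.sum_add_distrib]
      exact Finset.sum_congr rfl fun r _ => by ring
    have e2 : ∀ q, ∑ r, L r * (1 - K q r)
        = Fintype.card V - 2 * ((Fintype.card V : ℝ) - G.degree q.1)
          - 2 * ((Fintype.card V : ℝ) - G.degree q.2) := by
      intro q
      have e3 : ∑ r, L r * (1 - K q r) = ∑ r : V × V, l r.1 r.2 * 1
          - (∑ r : V × V, l r.1 r.2 * nonadj G q.1 r.1 + ∑ r : V × V, l r.1 r.2 * nonadj G q.1 r.2
          + ∑ r : V × V, l r.1 r.2 * nonadj G q.2 r.1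
          + ∑ r : V × V, l r.1 r.2 * nonadj G q.2 r.2) := by
        rw [← Finset.sum_add_distrib, ← Finset.sum_add_distrib, ← Finset.sum_add_distrib,
          ← Finset.sum_sub_distrib]
        refine Finset.sum_congr rfl fun r _ => ?_
        simp only [hL, hK]
        ring
      rw [e3, s1 (fun _ => 1), s1 (fun y => nonadj G q.1 y), s2 (fun y => nonadj G q.1 y),
        s1 (fun y => nonadj G q.2 y), s2 (fun y => nonadj G q.2 y), sum_nonadj, sum_nonadj]
      simp only [Finset.sum_const, Finset.card_univ, nsmul_eq_mul, mul_one]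
      ring
    have e4 : ∀ q, ∑ r, L q * L r * (B q * (1 - K q r)) = L q * B q * ∑ r, L r * (1 - K q r) := by
      intro q
      rw [Finset.mul_sum]
      exact Finset.sum_congr rfl fun r _ => by ring
    have e5 : ∀ q, ∑ r, L r * L q * (B q * (1 - K r q)) = L q * B q * ∑ r, L r * (1 - K q r) := by
      intro q
      rw [Finset.mul_sum]
      exact Finset.sum_congr rfl fun r _ => by rw [Ks r q]; ring
    rw [e1]
    simp only [e4, e5, e2]
    have e6 : ∀ q : V × V, 0 ≤ L q * B q * (Fintype.card V
        - 2 * ((Fintype.card V : ℝ) - G.degree q.1)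
          - 2 * ((Fintype.card V : ℝ) - G.degree q.2)) := by
      intro q
      refine mul_nonneg (mul_nonneg (l0 _ _) (mult_nonneg _ _ _)) ?_
      have g1 : (3 * Fintype.card V : ℝ) ≤ 4 * G.degree q.1 := by exact_mod_cast hG q.1
      have g2 : (3 * Fintype.card V : ℝ) ≤ 4 * G.degree q.2 := by exact_mod_cast hG q.2
      linarith
    exact add_nonneg (Finset.sum_nonneg fun q _ => e6 q) (Finset.sum_nonneg fun q _ => e6 q)
  have h4 : ∑ q, ∑ r, L q * L r * ((B q + B r) * (1 - K q r)) ≤ ∑ q, ∑ r, L q * L r * W q r :=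
    Finset.sum_le_sum fun q _ => Finset.sum_le_sum fun r _ => h1 q r
  rw [h2] at h4
  have h5 : ∑ x, ∑ y, wt G w x y = ∑ x, ∑ y, if G.Adj x y then w x y else 0 := rfl
  rw [← h5]
  linarith

/-- **Fractional Nash-Williams for triangles.** -/
theorem exists_decomp_three_quarters (G : SimpleGraph V) [DecidableRel G.Adj]
    (hG : ∀ v, 3 * Fintype.card V ≤ 4 * G.degree v) :
    ∃ ω : Finset V → ℝ, (∀ T ∈ G.cliqueFinset 3, 0 ≤ ω T ∧ ω T ≤ 1) ∧
      ∀ x y, G.Adj x y → ∑ T ∈ G.cliqueFinset 3 with x ∈ T ∧ y ∈ T, ω T = 1 :=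
  exists_decomp_of_dual G fun w hw htri => dual_nonneg G hG w hw htri

end Pool.Agent.Lib.MP_24b5ff_co
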