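import Pool.Agent.Lib.MP_24b5ff_co.Energy

/-!
# Peeled weights: the degree sum and the decomposition
-/

namespace Pool.Agent.Lib.MP_24b5ff_co

open Finset

variable {V : Type*} [Fintype V]

/-- the cubic bound used twice -/
theorem cubic_bound {N a : ℝ} (hN : 0 ≤ N) (ha0 : 0 ≤ a) (ha : a ≤ N / 5) :
    a * (N ^ 2 / 2 - 5 / 2 * N * a + 7 / 2 * a ^ 2 - 14 / 100 * N ^ 2) ≤ 15 / 1000 * N ^ 3 := by
  have h1 : 0 ≤ (537 / 1000 * N - a) * (a - 884 / 10000 * N) ^ 2 :=
    mul_nonneg (by linarith) (sq_nonneg _)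
  have h2 : 0 ≤ N ^ 2 * (N / 5 - a) := mul_nonneg (sq_nonneg _) (by linarith)
  have h3 : 0 ≤ N * a ^ 2 := mul_nonneg hN (sq_nonneg _)
  have h4 : 0 ≤ N ^ 3 := by positivity
  nlinarith

theorem q_anti {N a h : ℝ} (ha0 : 0 ≤ a) (hah : a ≤ h) (hh : h ≤ N / 5) (hN : 0 ≤ N) :
    N ^ 2 / 2 - 5 / 2 * N * h + 7 / 2 * h ^ 2 ≤ N ^ 2 / 2 - 5 / 2 * N * a + 7 / 2 * a ^ 2 := by
  nlinarith [mul_nonneg (sub_nonneg.mpr hah) (show (0:ℝ) ≤ 5 / 2 * N - 7 / 2 * (h + a) by linarith)]

theorem degree_sum {W : V → V → ℝ} (hW : IsWeight W)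
    (hh5 : ∀ x, hh W x ≤ (Fintype.card V : ℝ) / 5)
    (hpeel : ∀ x y z, 0 < W x y → 0 < W y z → 0 < W x z →
      hh W x < (Fintype.card V : ℝ) / 5 → hh W y < (Fintype.card V : ℝ) / 5 →
      hh W z < (Fintype.card V : ℝ) / 5 → False) :
    ∑ x, ((Fintype.card V : ℝ) ^ 2 / 2 - 5 / 2 * (Fintype.card V : ℝ) * hh W x
      + 7 / 2 * hh W x ^ 2) ≤ 17 / 100 * (Fintype.card V : ℝ) ^ 3 := by
  classical
  set N : ℝ := (Fintype.card V : ℝ) with hN
  have hN0 : 0 ≤ N := by positivity
  have hhn : ∀ x, 0 ≤ hh W x := fun x =>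
    Finset.sum_nonneg fun z _ => by linarith [hW.le_one x z]
  set q : ℝ → ℝ := fun h => N ^ 2 / 2 - 5 / 2 * N * h + 7 / 2 * h ^ 2 with hq
  have hq5 : q (N / 5) = 14 / 100 * N ^ 2 := by simp only [hq]; ring
  have hqa : ∀ a, 0 ≤ a → a ≤ N / 5 → 14 / 100 * N ^ 2 ≤ q a := by
    intro a ha0 ha
    rw [← hq5]
    exact q_anti ha0 ha le_rfl hN0
  set S : Finset V := Finset.univ.filter fun x => hh W x < N / 5 with hS
  have hcardV : ∑ _x : V, (1:ℝ) = N := by simp [hN]
  have hsplit : ∑ x, q (hh W x) = ∑ x ∈ S, q (hh W x) + ∑ x ∈ Sᶜ, q (hh W x) :=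
    (Finset.sum_add_sum_compl S _).symm
  have hcompl : ∑ x ∈ Sᶜ, q (hh W x) = (Sᶜ.card : ℝ) * (14 / 100 * N ^ 2) := by
    rw [← nsmul_eq_mul, ← Finset.sum_const]
    refine Finset.sum_congr rfl fun x hx => ?_
    have : ¬ hh W x < N / 5 := by simpa [hS] using hx
    have : hh W x = N / 5 := le_antisymm (hh5 x) (not_lt.mp this)
    rw [this, hq5]
  have hcards : (S.card : ℝ) + (Sᶜ.card : ℝ) = N := by
    rw [hN]
    exact_mod_cast Finset.card_add_card_compl S
  have hgoal : ∑ x ∈ S, q (hh W x) ≤ (S.card : ℝ) * (14 / 100 * N ^ 2) + 3 / 100 * N ^ 3 := by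
    rcases S.eq_empty_or_nonempty with hSe | hSne
    · rw [hSe]
      simp only [Finset.sum_empty, Finset.card_empty, Nat.cast_zero, zero_mul, zero_add]
      positivity
    · obtain ⟨x0, hx0S, hx0⟩ := Finset.exists_min_image S (fun x => hh W x) hSne
      have hx0lt : hh W x0 < N / 5 := by simpa [hS] using hx0S
      set S' : Finset V := S.filter fun x => 0 < W x0 x with hS'
      set a := hh W x0 with ha
      set s : ℝ := (S'.card : ℝ) with hs
      set R : Finset V := S.filter fun x => ¬ 0 < W x0 x with hR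
      have hparts : ∑ x ∈ S, q (hh W x) = ∑ x ∈ S', q (hh W x) + ∑ x ∈ R, q (hh W x) :=
        (Finset.sum_filter_add_sum_filter_not S (fun x => 0 < W x0 x) _).symm
      have hcardS : (S.card : ℝ) = s + (R.card : ℝ) := by
        rw [hs]
        exact_mod_cast (Finset.card_filter_add_card_filter_not (s := S) (fun x => 0 < W x0 x)).symm
      have hmem : ∀ x ∈ S, hh W x < N / 5 := fun x hx => by simpa [hS] using hx
      -- R is small
      have hRcard : (R.card : ℝ) ≤ a := by
        have h1 : (R.card : ℝ) = ∑ x ∈ R, (1 - W x0 x) := by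
          rw [Finset.card_eq_sum_ones]
          push_cast
          refine Finset.sum_congr rfl fun x hx => ?_
          have hx' : ¬ 0 < W x0 x := (Finset.mem_filter.mp hx).2
          have : W x0 x = 0 := le_antisymm (not_lt.mp hx') (hW.nonneg _ _)
          rw [this]; ring
        rw [h1, ha]
        exact Finset.sum_le_univ_sum_of_nonneg fun x => by linarith [hW.le_one x0 x]
      -- vertices of S' have large hh
      have hS'big : ∀ x ∈ S', s ≤ hh W x := by
        intro x hx
        have hxS := (Finset.mem_filter.mp hx).1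
        have hxW := (Finset.mem_filter.mp hx).2
        have h1 : s = ∑ z ∈ S', (1 - W x z) := by
          rw [hs, Finset.card_eq_sum_ones]
          push_cast
          refine Finset.sum_congr rfl fun z hz => ?_
          have hzS := (Finset.mem_filter.mp hz).1
          have hzW := (Finset.mem_filter.mp hz).2
          have : W x z = 0 := by
            by_contra hne
            have hpos : 0 < W x z := lt_of_le_of_ne (hW.nonneg _ _) (Ne.symm hne)
            exact hpeel x0 x z hxW hpos hzW hx0lt (hmem x hxS) (hmem z hzS)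
          rw [this]; ring
        rw [h1]
        exact Finset.sum_le_univ_sum_of_nonneg fun z => by linarith [hW.le_one x z]
      have hs0 : 0 ≤ s := by positivity
      have hs5 : s ≤ N / 5 := by
        rcases S'.eq_empty_or_nonempty with h | ⟨x, hx⟩
        · rw [hs, h]; simp; positivity
        · exact (hS'big x hx).trans (hh5 x)
      have hsumS' : ∑ x ∈ S', q (hh W x) ≤ s * q s := by
        rw [hs, ← nsmul_eq_mul, ← Finset.sum_const]
        refine Finset.sum_le_sum fun x hx => ?_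
        exact q_anti hs0 (hS'big x hx) (hh5 x) hN0
      have hsumR : ∑ x ∈ R, q (hh W x) ≤ (R.card : ℝ) * q a := by
        rw [← nsmul_eq_mul, ← Finset.sum_const]
        refine Finset.sum_le_sum fun x hx => ?_
        exact q_anti (hhn x0) (hx0 x (Finset.mem_filter.mp hx).1) (hh5 x) hN0
      have ha0 : 0 ≤ a := hhn x0
      have ha5 : a ≤ N / 5 := hh5 x0
      have hqa' := hqa a ha0 ha5
      have hRq : (R.card : ℝ) * (q a - 14 / 100 * N ^ 2) ≤ a * (q a - 14 / 100 * N ^ 2) :=
        mul_le_mul_of_nonneg_right hRcard (by linarith)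
      have hc1 : a * (q a - 14 / 100 * N ^ 2) ≤ 15 / 1000 * N ^ 3 := cubic_bound hN0 ha0 ha5
      have hc2 : s * (q s - 14 / 100 * N ^ 2) ≤ 15 / 1000 * N ^ 3 := cubic_bound hN0 hs0 hs5
      rw [hparts, hcardS]
      nlinarith
  have hfin : ∑ x, q (hh W x) ≤ 17 / 100 * N ^ 3 := by
    rw [hsplit, hcompl]
    have : (S.card : ℝ) * (14 / 100 * N ^ 2) + (Sᶜ.card : ℝ) * (14 / 100 * N ^ 2)
        = 14 / 100 * N ^ 3 := by
      rw [← add_mul, hcards]; ring
    linarith
  exact hfin

/-- A peeled weight function is a nonnegative combination of ordered triangles. -/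
theorem weighted_decomp {W : V → V → ℝ} (hW : IsWeight W) (hn : 0 < (Fintype.card V : ℝ))
    (hh5 : ∀ x, hh W x ≤ (Fintype.card V : ℝ) / 5)
    (hpeel : ∀ x y z, 0 < W x y → 0 < W y z → 0 < W x z →
      hh W x < (Fintype.card V : ℝ) / 5 → hh W y < (Fintype.card V : ℝ) / 5 →
      hh W z < (Fintype.card V : ℝ) / 5 → False) :
    ∃ g : V → V → ℝ, (∀ x y, 0 ≤ g x y) ∧ (∀ x y, g x y = g y x) ∧
      ∀ x y, ∑ z, W x y * W y z * W x z * (g x y + g y z + g x z) = W x y := by
  obtain ⟨g, hg0, hgs, heq⟩ := exists_sol hW hh5 hn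
  have hG := G_le_half hW hh5 hn (degree_sum hW hh5 hpeel) hg0 hgs heq
  refine ⟨g, hg0, hgs, fun x y => ?_⟩
  rcases (hW.nonneg x y).lt_or_eq with h | h
  · have h1 := heq x y h
    have hx : max 0 (1 / 2 - GG W g x) = 1 / 2 - GG W g x := max_eq_right (by linarith [hG x])
    have hy : max 0 (1 / 2 - GG W g y) = 1 / 2 - GG W g y := max_eq_right (by linarith [hG y])
    rw [hx, hy] at h1
    have h2 : ∑ z, W y z * W x z * (g x y + g y z + g x z)
        = mm W g x y + GG W g x + GG W g y := by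
      unfold mm GG cod
      rw [Finset.sum_mul, ← Finset.sum_sub_distrib, ← Finset.sum_sub_distrib,
        ← Finset.sum_add_distrib, ← Finset.sum_add_distrib]
      refine Finset.sum_congr rfl fun z _ => ?_
      ring
    have h3 : ∑ z, W x y * W y z * W x z * (g x y + g y z + g x z)
        = W x y * ∑ z, W y z * W x z * (g x y + g y z + g x z) := by
      rw [Finset.mul_sum]
      exact Finset.sum_congr rfl fun z _ => by ring
    rw [h3, h2, h1]
    ring
  · rw [← h]
    simp

end Pool.Agent.Lib.MP_24b5ff_co
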