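import Mathlib

/-!
# Farkas' lemma and minimum weight perfect fractional matchings

`farkas`: Farkas' lemma for finitely many linear functionals (Bartl's induction).
`exists_matching_potential`: in a graph on `n` vertices with minimum degree at least `n/2`
and symmetric edge weights `w` there are a perfect fractional matching `l` and potentials `p`
with `p x + p y ≤ w x y` on all edges and equality whenever `l x y > 0`.
-/

namespace Pool.Agent.Lib.MP_24b5ff_co

open Finset

/-- Farkas' lemma (finitely many functionals). -/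
theorem farkas {ι : Type*} (s : Finset ι) :
    ∀ {E : Type*} [AddCommGroup E] [Module ℝ E] (a : ι → E →ₗ[ℝ] ℝ) (b : E →ₗ[ℝ] ℝ),
      (∀ x, (∀ i ∈ s, a i x ≤ 0) → b x ≤ 0) →
      ∃ u : ι → ℝ, (∀ i, 0 ≤ u i) ∧ ∀ x, b x = ∑ i ∈ s, u i * a i x := by
  classical
  induction s using Finset.induction_on with
  | empty =>
    intro E _ _ a b h
    refine ⟨fun _ => 0, fun _ => le_refl _, fun x => ?_⟩
    have h1 := h x (by simp)
    have h2 := h (-x) (by simp)
    rw [map_neg] at h2
    simp
    linarith
  | insert j s hj ih =>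
    intro E _ _ a b h
    by_cases hb : ∀ x, (∀ i ∈ s, a i x ≤ 0) → b x ≤ 0
    · obtain ⟨u, hu0, hu⟩ := ih a b hb
      refine ⟨fun i => if i = j then 0 else u i, fun i => ?_, fun x => ?_⟩
      · dsimp only
        split_ifs
        · exact le_refl _
        · exact hu0 i
      · rw [Finset.sum_insert hj, hu x]
        simp only [if_true, zero_mul, zero_add]
        refine Finset.sum_congr rfl fun i hi => ?_
        rw [if_neg (fun h : i = j => hj (h ▸ hi))]
    · push Not at hb
      obtain ⟨x0, hx0, hbx0⟩ := hb
      have hj0 : 0 < a j x0 := by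
        by_contra hn
        have := h x0 (by
          intro i hi
          rcases Finset.mem_insert.mp hi with rfl | hi
          · exact not_lt.mp hn
          · exact hx0 i hi)
        linarith
      set c := a j x0 with hc
      -- the projection
      let π : E →ₗ[ℝ] E := LinearMap.id - (a j).smulRight (c⁻¹ • x0)
      have hπ : ∀ x, π x = x - (a j x * c⁻¹) • x0 := by
        intro x
        simp [π, smul_smul]
      have key : ∀ x, (∀ i ∈ s, ((a i).comp π) x ≤ 0) → (b.comp π) x ≤ 0 := by
        intro x hx
        refine h (π x) ?_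
        intro i hi
        rcases Finset.mem_insert.mp hi with rfl | hi
        · rw [hπ, map_sub, map_smul, smul_eq_mul, ← hc]
          field_simp
          simp
        · exact hx i hi
      obtain ⟨u, hu0, hu⟩ := ih (fun i => (a i).comp π) (b.comp π) key
      have hs : ∑ i ∈ s, u i * a i x0 ≤ 0 :=
        Finset.sum_nonpos fun i hi => mul_nonpos_of_nonneg_of_nonpos (hu0 i) (hx0 i hi)
      refine ⟨fun i => if i = j then (b x0 - ∑ i ∈ s, u i * a i x0) * c⁻¹ else u i,
        fun i => ?_, fun x => ?_⟩
      · dsimp only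
        split_ifs
        · exact mul_nonneg (by linarith) (inv_nonneg.mpr hj0.le)
        · exact hu0 i
      · have h1 := hu x
        simp only [LinearMap.comp_apply, hπ, map_sub, map_smul, smul_eq_mul] at h1
        rw [Finset.sum_insert hj]
        simp only [if_true]
        have h2 : ∑ i ∈ s, (if i = j then (b x0 - ∑ i ∈ s, u i * a i x0) * c⁻¹ else u i) * a i x
            = ∑ i ∈ s, u i * a i x := by
          refine Finset.sum_congr rfl fun i hi => ?_
          rw [if_neg (fun h : i = j => hj (h ▸ hi))]
        have h3 : ∑ i ∈ s, u i * (a i x - a j x * c⁻¹ * a i x0)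
            = ∑ i ∈ s, u i * a i x - a j x * c⁻¹ * ∑ i ∈ s, u i * a i x0 := by
          rw [Finset.mul_sum, ← Finset.sum_sub_distrib]
          exact Finset.sum_congr rfl fun i _ => by ring
        rw [h2]
        rw [h3] at h1
        linarith

variable {V : Type*} [Fintype V] [DecidableEq V]

/-- the functional `d ↦ d x y` on functions of two variables -/
def ev2 (x y : V) : (V → V → ℝ) →ₗ[ℝ] ℝ :=
  (LinearMap.proj y).comp (LinearMap.proj (R := ℝ) (φ := fun _ : V => V → ℝ) x)

omit [Fintype V] [DecidableEq V] in
@[simp] theorem ev2_apply (x y : V) (d : V → V → ℝ) : ev2 x y d = d x y := rfl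

/-- perfect fractional matchings of a graph (as symmetric functions) -/
structure IsPFM (G : SimpleGraph V) (l : V → V → ℝ) : Prop where
  symm : ∀ x y, l x y = l y x
  nonneg : ∀ x y, 0 ≤ l x y
  off : ∀ x y, ¬ G.Adj x y → l x y = 0
  row : ∀ x, ∑ y, l x y = 1

theorem exists_pfm (G : SimpleGraph V) [DecidableRel G.Adj]
    (hG : ∀ v, Fintype.card V ≤ 2 * G.degree v) : ∃ l, IsPFM G l := by
  classical
  have hmain : ∀ y : V → ℝ,
      (∀ i ∈ (Finset.univ.filter fun q : V × V => G.Adj q.1 q.2),
        (-(LinearMap.proj (R := ℝ) (φ := fun _ : V => ℝ) i.1) -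
          (LinearMap.proj (R := ℝ) (φ := fun _ : V => ℝ) i.2)) y ≤ 0) →
      (-(∑ x : V, LinearMap.proj (R := ℝ) (φ := fun _ : V => ℝ) x)) y ≤ 0 := by
    intro y hy
    have hy' : ∀ a b, G.Adj a b → 0 ≤ y a + y b := by
      intro a b hab
      have := hy (a, b) (by simp [hab])
      simp at this
      linarith
    simp only [LinearMap.neg_apply, LinearMap.sum_apply, LinearMap.proj_apply]
    rw [Left.neg_nonpos_iff]
    rcases isEmpty_or_nonempty V with hV | hV
    · simp
    obtain ⟨x0, hx0⟩ := Finite.exists_min y
    by_cases hm : 0 ≤ y x0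
    · exact Finset.sum_nonneg fun x _ => hm.trans (hx0 x)
    push Not at hm
    have h1 : ∑ x, y x ≥ ∑ x, (if G.Adj x0 x then - y x0 else y x0) := by
      refine Finset.sum_le_sum fun x _ => ?_
      split_ifs with h
      · linarith [hy' x0 x h]
      · exact hx0 x
    have h2 : ∑ x, (if G.Adj x0 x then - y x0 else y x0)
        = (G.degree x0 : ℝ) * (-2 * y x0) + (Fintype.card V : ℝ) * y x0 := by
      have : ∀ x, (if G.Adj x0 x then - y x0 else y x0)
          = (if G.Adj x0 x then (1:ℝ) else 0) * (-2 * y x0) + y x0 := by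
        intro x; split_ifs <;> ring
      simp only [this]
      rw [Finset.sum_add_distrib, ← Finset.sum_mul, Finset.sum_boole]
      simp only [Finset.sum_const, Finset.card_univ, nsmul_eq_mul]
      congr 3
      rw [← G.card_neighborFinset_eq_degree]
      congr 1
      ext y
      simp
    have h3 : (Fintype.card V : ℝ) ≤ 2 * G.degree x0 := by exact_mod_cast hG x0
    nlinarith
  obtain ⟨u, hu0, hu⟩ := farkas _ _ _ hmain
  refine ⟨fun x y => if G.Adj x y then u (x, y) + u (y, x) else 0, ?_, ?_, ?_, ?_⟩
  · intro x y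
    by_cases h : G.Adj x y
    · simp [h, h.symm]; ring
    · have h' : ¬ G.Adj y x := fun h' => h h'.symm
      simp [h, h']
  · intro x y
    split_ifs
    · exact add_nonneg (hu0 _) (hu0 _)
    · exact le_refl _
  · intro x y h
    simp [h]
  · intro v
    have h1 := hu (fun x => if x = v then 1 else 0)
    simp only [LinearMap.neg_apply, LinearMap.sum_apply, LinearMap.proj_apply,
      LinearMap.sub_apply] at h1
    rw [Finset.sum_ite_eq' Finset.univ v (fun _ => (1:ℝ))] at h1
    simp only [Finset.mem_univ, if_true] at h1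
    rw [Finset.sum_filter, Fintype.sum_prod_type] at h1
    have h2 : ∀ x y : V, (if G.Adj x y then u (x, y) *
        (-(if x = v then (1:ℝ) else 0) - (if y = v then (1:ℝ) else 0)) else 0)
        = -(if x = v then (if G.Adj x y then u (x, y) else 0) else 0)
          - (if y = v then (if G.Adj x y then u (x, y) else 0) else 0) := by
      intro x y
      split_ifs <;> ring
    simp only [h2, Finset.sum_sub_distrib, Finset.sum_neg_distrib] at h1
    have h3 : ∑ x : V, ∑ y : V, (if x = v then (if G.Adj x y then u (x, y) else 0) else 0)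
        = ∑ y, (if G.Adj v y then u (v, y) else 0) := by
      rw [Finset.sum_comm]
      refine Finset.sum_congr rfl fun y _ => ?_
      rw [Finset.sum_ite_eq' Finset.univ v]
      simp
    have h4 : ∑ x : V, ∑ y : V, (if y = v then (if G.Adj x y then u (x, y) else 0) else 0)
        = ∑ x, (if G.Adj x v then u (x, v) else 0) := by
      refine Finset.sum_congr rfl fun x _ => ?_
      rw [Finset.sum_ite_eq' Finset.univ v]
      simp
    rw [h3, h4] at h1
    have h5 : ∑ y, (if G.Adj v y then u (v, y) + u (y, v) else 0)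
        = ∑ y, (if G.Adj v y then u (v, y) else 0) + ∑ x, (if G.Adj x v then u (x, v) else 0) := by
      rw [← Finset.sum_add_distrib]
      refine Finset.sum_congr rfl fun y _ => ?_
      rw [if_congr (G.adj_comm y v) rfl rfl]
      split_ifs <;> simp
    rw [h5]
    linarith

theorem exists_min_pfm (G : SimpleGraph V) [DecidableRel G.Adj]
    (hG : ∀ v, Fintype.card V ≤ 2 * G.degree v) (w : V → V → ℝ) :
    ∃ l, IsPFM G l ∧ ∀ l', IsPFM G l' →
      ∑ x, ∑ y, w x y * l x y ≤ ∑ x, ∑ y, w x y * l' x y := by
  obtain ⟨l0, hl0⟩ := exists_pfm G hG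
  have hK : IsCompact {l : V → V → ℝ | IsPFM G l} := by
    have h1 : IsCompact (Set.univ.pi fun _ : V => Set.univ.pi fun _ : V => Set.Icc (0:ℝ) 1) :=
      isCompact_univ_pi fun _ => isCompact_univ_pi fun _ => isCompact_Icc
    refine h1.of_isClosed_subset ?_ ?_
    · have : {l : V → V → ℝ | IsPFM G l} = {l | ∀ x y, l x y = l y x} ∩
          ({l | ∀ x y, 0 ≤ l x y} ∩ ({l | ∀ x y, ¬ G.Adj x y → l x y = 0} ∩
            {l | ∀ x, ∑ y, l x y = 1})) := by
        ext l
        exact ⟨fun h => ⟨h.1, h.2, h.3, h.4⟩, fun h => ⟨h.1, h.2.1, h.2.2.1, h.2.2.2⟩⟩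
      rw [this]
      refine IsClosed.inter ?_ (IsClosed.inter ?_ (IsClosed.inter ?_ ?_))
      · simp only [Set.ofPred_forall]
        exact isClosed_iInter fun x => isClosed_iInter fun y =>
          isClosed_eq (by fun_prop) (by fun_prop)
      · simp only [Set.ofPred_forall]
        exact isClosed_iInter fun x => isClosed_iInter fun y =>
          isClosed_le (by fun_prop) (by fun_prop)
      · simp only [Set.ofPred_forall]
        exact isClosed_iInter fun x => isClosed_iInter fun y => isClosed_iInter fun _ =>
          isClosed_eq (by fun_prop) (by fun_prop)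
      · simp only [Set.ofPred_forall]
        exact isClosed_iInter fun x => isClosed_eq (by fun_prop) (by fun_prop)
    · intro l hl x _ y _
      refine ⟨hl.nonneg x y, ?_⟩
      rw [← hl.row x]
      exact Finset.single_le_sum (fun z _ => hl.nonneg x z) (Finset.mem_univ y)
  have hc : Continuous fun l : V → V → ℝ => ∑ x, ∑ y, w x y * l x y := by fun_prop
  obtain ⟨l, h1, h2⟩ := hK.exists_isMinOn ⟨l0, hl0⟩ hc.continuousOn
  exact ⟨l, h1, fun l' h => h2 h⟩

/-- **Perfect fractional matching with potentials.** -/
theorem exists_matching_potential (G : SimpleGraph V) [DecidableRel G.Adj]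
    (hG : ∀ v, Fintype.card V ≤ 2 * G.degree v) (w : V → V → ℝ)
    (hw : ∀ x y, w x y = w y x) :
    ∃ (l : V → V → ℝ) (p : V → ℝ), (∀ x y, l x y = l y x) ∧ (∀ x y, 0 ≤ l x y) ∧
      (∀ x y, ¬ G.Adj x y → l x y = 0) ∧ (∀ x, ∑ y, l x y = 1) ∧
      (∀ x y, G.Adj x y → p x + p y ≤ w x y) ∧ (∀ x y, 0 < l x y → p x + p y = w x y) := by
  classical
  obtain ⟨l, hl, hmin⟩ := exists_min_pfm G hG w
  -- a positive lower bound for the positive entries
  obtain ⟨m, hm0, hm⟩ : ∃ m : ℝ, 0 < m ∧ ∀ x y, l x y = 0 ∨ m ≤ l x y := by
    by_cases hne : (Finset.univ.filter fun q : V × V => 0 < l q.1 q.2).Nonempty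
    · obtain ⟨q, hq, hqm⟩ := Finset.exists_min_image _ (fun q : V × V => l q.1 q.2) hne
      refine ⟨l q.1 q.2, (Finset.mem_filter.mp hq).2, fun x y => ?_⟩
      rcases (hl.nonneg x y).eq_or_lt with h | h
      · exact Or.inl h.symm
      · exact Or.inr (hqm (x, y) (by simp [h]))
    · refine ⟨1, one_pos, fun x y => Or.inl ?_⟩
      rcases (hl.nonneg x y).eq_or_lt with h | h
      · exact h.symm
      · exact absurd ⟨(x, y), by simp [h]⟩ hne
  -- optimality in feasible directions
  have hopt : ∀ d : V → V → ℝ, (∀ x y, G.Adj x y → l x y = 0 → 0 ≤ d x y) →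
      (∀ x, ∑ y, (if G.Adj x y then d x y + d y x else 0) = 0) →
      0 ≤ ∑ x, ∑ y, (if G.Adj x y then w x y * d x y else 0) := by
    intro d hd hrow
    set D : V → V → ℝ := fun x y => if G.Adj x y then d x y + d y x else 0 with hD
    have hDs : ∀ x y, D x y = D y x := by
      intro x y
      simp only [hD]
      rw [if_congr (G.adj_comm x y) rfl rfl]
      split_ifs <;> ring
    set M : ℝ := 1 + ∑ x, ∑ y, |D x y| with hM
    have hM1 : ∀ x y, |D x y| ≤ M := by
      intro x y
      have h1 : |D x y| ≤ ∑ y, |D x y| :=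
        Finset.single_le_sum (f := fun y => |D x y|) (fun z _ => abs_nonneg _) (Finset.mem_univ y)
      have h2 : ∑ y, |D x y| ≤ ∑ x, ∑ y, |D x y| :=
        Finset.single_le_sum (f := fun x => ∑ y, |D x y|)
          (fun z _ => Finset.sum_nonneg fun _ _ => abs_nonneg _) (Finset.mem_univ x)
      linarith
    have hM0 : 0 < M := by
      have : 0 ≤ ∑ x, ∑ y, |D x y| :=
        Finset.sum_nonneg fun _ _ => Finset.sum_nonneg fun _ _ => abs_nonneg _
      linarith
    have hfeas : IsPFM G (fun x y => l x y + m / M * D x y) := by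
      refine ⟨fun x y => ?_, fun x y => ?_, fun x y h => ?_, fun x => ?_⟩
      · rw [hl.symm, hDs]
      · have hε : 0 < m / M := div_pos hm0 hM0
        rcases hm x y with h | h
        · by_cases hxy : G.Adj x y
          · have h1 := hd x y hxy h
            have h2 := hd y x hxy.symm (by rw [hl.symm]; exact h)
            rw [h]
            simp only [hD, hxy, if_true]
            have := mul_nonneg hε.le (add_nonneg h1 h2)
            linarith
          · simp [hD, hxy, h]
        · have h1 : |m / M * D x y| ≤ m := by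
            rw [abs_mul, abs_of_pos hε]
            calc m / M * |D x y| ≤ m / M * M := mul_le_mul_of_nonneg_left (hM1 x y) hε.le
              _ = m := by field_simp
          have := neg_abs_le (m / M * D x y)
          linarith
      · simp [hl.off x y h, hD, h]
      · rw [Finset.sum_add_distrib, ← Finset.mul_sum, hl.row]
        have := hrow x
        simp only [hD]
        rw [this]
        ring
    have h1 := hmin _ hfeas
    have h2 : ∑ x, ∑ y, w x y * (l x y + m / M * D x y)
        = ∑ x, ∑ y, w x y * l x y + m / M * ∑ x, ∑ y, w x y * D x y := by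
      simp only [mul_add, Finset.sum_add_distrib, Finset.mul_sum]
      congr 1
      exact Finset.sum_congr rfl fun x _ => Finset.sum_congr rfl fun y _ => by ring
    rw [h2] at h1
    have h3 : 0 ≤ ∑ x, ∑ y, w x y * D x y := by
      have hε : 0 < m / M := div_pos hm0 hM0
      by_contra hneg
      push Not at hneg
      have := mul_neg_of_pos_of_neg hε hneg
      linarith
    have h4 : ∑ x, ∑ y, w x y * D x y
        = 2 * ∑ x, ∑ y, (if G.Adj x y then w x y * d x y else 0) := by
      have h5 : ∀ x y, w x y * D x y = (if G.Adj x y then w x y * d x y else 0)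
          + (if G.Adj y x then w y x * d y x else 0) := by
        intro x y
        simp only [hD]
        rw [if_congr (G.adj_comm y x) rfl rfl, hw y x]
        split_ifs <;> ring
      simp only [h5, Finset.sum_add_distrib]
      rw [Finset.sum_comm (f := fun x y => if G.Adj y x then w y x * d y x else 0)]
      ring
    linarith
  -- Farkas
  set s : Finset ((V × V) ⊕ (V ⊕ V)) := Finset.univ.filter fun i => match i with
    | Sum.inl q => G.Adj q.1 q.2 ∧ l q.1 q.2 = 0
    | Sum.inr _ => True with hs
  let R : V → (V → V → ℝ) →ₗ[ℝ] ℝ := fun x =>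
    ∑ y, (if G.Adj x y then ev2 x y + ev2 y x else 0)
  have hR : ∀ x d, R x d = ∑ y, (if G.Adj x y then d x y + d y x else 0) := by
    intro x d
    simp only [R, LinearMap.sum_apply]
    refine Finset.sum_congr rfl fun y _ => ?_
    split_ifs <;> simp
  let a : (V × V) ⊕ (V ⊕ V) → (V → V → ℝ) →ₗ[ℝ] ℝ := fun i => match i with
    | Sum.inl q => - ev2 q.1 q.2
    | Sum.inr (Sum.inl x) => R x
    | Sum.inr (Sum.inr x) => - R x
  let b : (V → V → ℝ) →ₗ[ℝ] ℝ := - ∑ x, ∑ y, (if G.Adj x y then w x y • ev2 x y else 0)
  have hb : ∀ d, b d = - ∑ x, ∑ y, (if G.Adj x y then w x y * d x y else 0) := by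
    intro d
    simp only [b, LinearMap.neg_apply, LinearMap.sum_apply]
    congr 1
    refine Finset.sum_congr rfl fun x _ => Finset.sum_congr rfl fun y _ => ?_
    split_ifs <;> simp
  obtain ⟨u, hu0, hu⟩ := farkas s a b (by
    intro d hd
    rw [hb]
    have h1 : ∀ x y, G.Adj x y → l x y = 0 → 0 ≤ d x y := by
      intro x y hxy hl0
      have := hd (Sum.inl (x, y)) (by simp [hs, hxy, hl0])
      simp only [a, LinearMap.neg_apply, ev2_apply] at this
      linarith
    have h2 : ∀ x, ∑ y, (if G.Adj x y then d x y + d y x else 0) = 0 := by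
      intro x
      have h3 := hd (Sum.inr (Sum.inl x)) (by simp [hs])
      have h4 := hd (Sum.inr (Sum.inr x)) (by simp [hs])
      simp only [a, LinearMap.neg_apply, hR] at h3 h4
      linarith
    linarith [hopt d h1 h2])
  refine ⟨l, fun x => u (Sum.inr (Sum.inr x)) - u (Sum.inr (Sum.inl x)), hl.symm, hl.nonneg,
    hl.off, hl.row, ?_⟩
  -- evaluate at the elementary direction
  have hval : ∀ x y, G.Adj x y → w x y = (if l x y = 0 then u (Sum.inl (x, y)) else 0)
      + (u (Sum.inr (Sum.inr x)) - u (Sum.inr (Sum.inl x)))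
      + (u (Sum.inr (Sum.inr y)) - u (Sum.inr (Sum.inl y))) := by
    intro x y hxy
    have hne : x ≠ y := G.ne_of_adj hxy
    set d : V → V → ℝ := fun a b => if a = x ∧ b = y then 1 else 0 with hd
    have h1 := hu d
    rw [hb] at h1
    have h2 : ∑ a, ∑ b, (if G.Adj a b then w a b * d a b else 0) = w x y := by
      rw [Finset.sum_eq_single x, Finset.sum_eq_single y]
      · simp [hd, hxy]
      · intro b _ hb; simp [hd, hb]
      · simp
      · intro a _ ha
        exact Finset.sum_eq_zero fun b _ => by simp [hd, ha]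
      · simp
    have hRd : ∀ z, R z d = (if z = x then 1 else 0) + (if z = y then 1 else 0) := by
      intro z
      rw [hR]
      by_cases hzx : z = x
      · subst hzx
        rw [Finset.sum_eq_single y]
        · simp [hd, hxy, hne, hne.symm]
        · intro b _ hb
          simp [hd, hb, hne]
        · simp
      · by_cases hzy : z = y
        · subst hzy
          rw [Finset.sum_eq_single x]
          · simp [hd, hxy.symm, hzx]
          · intro b _ hb
            simp [hd, hb, hzx]
          · simp
        · simp [hd, hzx, hzy]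
    rw [h2, hs, Finset.sum_filter, Fintype.sum_sum_type, Fintype.sum_sum_type] at h1
    simp only [a, LinearMap.neg_apply, hRd, if_true, ev2_apply] at h1
    have h3 : ∑ q : V × V, (if G.Adj q.1 q.2 ∧ l q.1 q.2 = 0 then
        u (Sum.inl q) * -d q.1 q.2 else 0) = - (if l x y = 0 then u (Sum.inl (x, y)) else 0) := by
      rw [Finset.sum_eq_single (x, y)]
      · simp only [hxy, true_and, hd, and_self, if_true]
        split_ifs <;> ring
      · rintro ⟨a, b⟩ _ hab
        have : ¬ (a = x ∧ b = y) := fun h => hab (by rw [h.1, h.2])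
        simp [hd, this]
      · simp
    have h4 : ∑ z, u (Sum.inr (Sum.inl z)) * ((if z = x then (1:ℝ) else 0) + (if z = y then 1 else 0))
        = u (Sum.inr (Sum.inl x)) + u (Sum.inr (Sum.inl y)) := by
      simp only [mul_add, Finset.sum_add_distrib, mul_ite, mul_one, mul_zero]
      rw [Finset.sum_ite_eq' Finset.univ x, Finset.sum_ite_eq' Finset.univ y]
      simp
    have h5 : ∑ z, u (Sum.inr (Sum.inr z)) * -((if z = x then (1:ℝ) else 0) + (if z = y then 1 else 0))
        = -(u (Sum.inr (Sum.inr x)) + u (Sum.inr (Sum.inr y))) := by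
      simp only [mul_neg, Finset.sum_neg_distrib, mul_add, Finset.sum_add_distrib, mul_ite,
        mul_one, mul_zero]
      rw [Finset.sum_ite_eq' Finset.univ x, Finset.sum_ite_eq' Finset.univ y]
      simp
    have h6 : -w x y = (∑ q : V × V, (if G.Adj q.1 q.2 ∧ l q.1 q.2 = 0 then
        u (Sum.inl q) * -d q.1 q.2 else 0)) +
        (∑ z, u (Sum.inr (Sum.inl z)) * ((if z = x then (1:ℝ) else 0) + (if z = y then 1 else 0)) +
        ∑ z, u (Sum.inr (Sum.inr z)) *
          -((if z = x then (1:ℝ) else 0) + (if z = y then 1 else 0))) := by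
      convert h1
    rw [h3, h4, h5] at h6
    linarith
  constructor
  · intro x y hxy
    have h1 := hval x y hxy
    split_ifs at h1 with h
    · linarith [hu0 (Sum.inl (x, y))]
    · linarith
  · intro x y hxy
    have hadj : G.Adj x y := by
      by_contra hn
      rw [hl.off x y hn] at hxy
      exact lt_irrefl _ hxy
    have h1 := hval x y hadj
    rw [if_neg hxy.ne'] at h1
    linarith

end Pool.Agent.Lib.MP_24b5ff_co
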