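import Pool.Agent.Lib.MP_24b5ff_co.TQInequality

/-!
# From the sum inequality to a fractional triangle decomposition

A variational argument (least squares over the cube) that replaces the Farkas lemma.
-/

namespace Pool.Agent.Lib.MP_24b5ff_co.TQ

open Finset

variable {V : Type*} [Fintype V] [DecidableEq V] (G : SimpleGraph V) [DecidableRel G.Adj]

/-- the total value of the triangles that contain both `x` and `y` -/
def cov (ω : Finset V → ℝ) (x y : V) : ℝ :=
  ∑ T ∈ G.cliqueFinset 3 with x ∈ T ∧ y ∈ T, ω T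

/-- indicator of the pairs inside `T` -/
def chi (T : Finset V) (x y : V) : ℝ := if x ∈ T ∧ y ∈ T then 1 else 0

/-- indicator of adjacency -/
def Ad (x y : V) : ℝ := if G.Adj x y then 1 else 0

theorem cov_symm (ω : Finset V → ℝ) (x y : V) : cov G ω x y = cov G ω y x := by
  unfold cov
  congr 1
  ext T
  simp only [Finset.mem_filter]
  tauto

theorem cov_eq (ω : Finset V → ℝ) (x y : V) :
    cov G ω x y = ∑ T ∈ G.cliqueFinset 3, ω T * chi T x y := by
  unfold cov chi
  rw [Finset.sum_filter]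
  refine Finset.sum_congr rfl fun T _ => ?_
  split_ifs <;> simp

theorem cov_continuous (x y : V) : Continuous fun ω : Finset V → ℝ => cov G ω x y := by
  unfold cov
  fun_prop

theorem cov_pert {ω : Finset V → ℝ} {T0 : Finset V} (hT0 : T0 ∈ G.cliqueFinset 3) (t : ℝ)
    (x y : V) : cov G (fun T => ω T + if T = T0 then t else 0) x y
      = cov G ω x y + t * chi T0 x y := by
  rw [cov_eq, cov_eq]
  simp only [add_mul, ite_mul, zero_mul]
  rw [Finset.sum_add_distrib, Finset.sum_ite_eq', if_pos hT0]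

/-- the least squares functional -/
def FF (ω : Finset V → ℝ) : ℝ := ∑ x, ∑ y, Ad G x y * (cov G ω x y - 1) ^ 2

/-- the derivative of the functional in the direction of the triangle `T` -/
def DD (ω : Finset V → ℝ) (T : Finset V) : ℝ :=
  ∑ x, ∑ y, Ad G x y * chi T x y * (cov G ω x y - 1)

theorem FF_pert {ω : Finset V → ℝ} {T0 : Finset V} (hT0 : T0 ∈ G.cliqueFinset 3) (t : ℝ) :
    FF G (fun T => ω T + if T = T0 then t else 0)
      = FF G ω + (t * (2 * DD G ω T0) + t ^ 2 * ∑ x, ∑ y, Ad G x y * chi T0 x y ^ 2) := by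
  unfold FF DD
  simp only [Finset.mul_sum, ← Finset.sum_add_distrib]
  refine Finset.sum_congr rfl fun x _ => Finset.sum_congr rfl fun y _ => ?_
  rw [cov_pert G hT0]
  ring

theorem deriv_nonneg {D C t0 : ℝ} (ht0 : 0 < t0)
    (h : ∀ t, 0 < t → t ≤ t0 → 0 ≤ t * D + t ^ 2 * C) : 0 ≤ D := by
  by_contra hD
  push Not at hD
  set t := min t0 (-D / (2 * (|C| + 1))) with ht
  have hc : 0 < |C| + 1 := by positivity
  have h1 : 0 < -D / (2 * (|C| + 1)) := div_pos (by linarith) (by linarith)
  have htp : 0 < t := lt_min ht0 h1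
  have h2 := h t htp (min_le_left _ _)
  have h3 : t ≤ -D / (2 * (|C| + 1)) := min_le_right _ _
  have h4 : t * (2 * (|C| + 1)) ≤ -D := by
    rwa [le_div_iff₀ (by linarith)] at h3
  have h5 : t * C ≤ t * |C| := mul_le_mul_of_nonneg_left (le_abs_self C) htp.le
  have h6 : t * D + t ^ 2 * C = t * (D + t * C) := by ring
  rw [h6] at h2
  have h7 : 0 ≤ D + t * C := nonneg_of_mul_nonneg_right h2 htp
  nlinarith [abs_nonneg C]

theorem exists_min_FF : ∃ ω : Finset V → ℝ, (∀ T, 0 ≤ ω T ∧ ω T ≤ 1) ∧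
    ∀ ω' : Finset V → ℝ, (∀ T, 0 ≤ ω' T ∧ ω' T ≤ 1) → FF G ω ≤ FF G ω' := by
  have hK : IsCompact (Set.univ.pi fun _ : Finset V => Set.Icc (0:ℝ) 1) :=
    isCompact_univ_pi fun _ => isCompact_Icc
  have hne : (Set.univ.pi fun _ : Finset V => Set.Icc (0:ℝ) 1).Nonempty :=
    ⟨fun _ => 0, fun _ _ => ⟨le_refl _, zero_le_one⟩⟩
  have hc : Continuous (FF G) := by
    unfold FF
    refine continuous_finsetSum _ fun x _ => continuous_finsetSum _ fun y _ => ?_
    exact continuous_const.mul (((cov_continuous G x y).sub continuous_const).pow 2)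
  obtain ⟨ω, h1, h2⟩ := hK.exists_isMinOn hne hc.continuousOn
  exact ⟨ω, fun T => h1 T (Set.mem_univ T), fun ω' h => h2 (a := ω') fun T _ => h T⟩

theorem DD_triangle (ω : Finset V → ℝ) {x y z : V} (hxy : G.Adj x y) (hyz : G.Adj y z)
    (hxz : G.Adj x z) :
    DD G ω {x, y, z} = 2 * ((cov G ω x y - 1) + (cov G ω y z - 1) + (cov G ω x z - 1)) := by
  have nxy := G.ne_of_adj hxy
  have nyz := G.ne_of_adj hyz
  have nxz := G.ne_of_adj hxz
  have e : ∀ f : V → ℝ, ∑ a ∈ ({x, y, z} : Finset V), f a = f x + f y + f z := by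
    intro f
    rw [Finset.sum_insert (by simp [nxy, nxz]), Finset.sum_insert (by simp [nyz]),
      Finset.sum_singleton]
    ring
  have h1 : DD G ω {x, y, z} = ∑ a ∈ ({x, y, z} : Finset V), ∑ b ∈ ({x, y, z} : Finset V),
      Ad G a b * (cov G ω a b - 1) := by
    unfold DD
    rw [← Finset.sum_subset (Finset.subset_univ ({x, y, z} : Finset V))]
    · refine Finset.sum_congr rfl fun a ha => ?_
      rw [← Finset.sum_subset (Finset.subset_univ ({x, y, z} : Finset V))]
      · refine Finset.sum_congr rfl fun b hb => ?_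
        unfold chi
        rw [if_pos ⟨ha, hb⟩, mul_one]
      · intro b _ hb
        unfold chi
        rw [if_neg (fun h => hb h.2), mul_zero, zero_mul]
    · intro a _ ha
      refine Finset.sum_eq_zero fun b _ => ?_
      unfold chi
      rw [if_neg (fun h => ha h.1), mul_zero, zero_mul]
  rw [h1]
  simp only [e]
  unfold Ad
  simp only [hxy, hyz, hxz, hxy.symm, hyz.symm, hxz.symm, SimpleGraph.irrefl, if_true, if_false]
  rw [cov_symm G ω y x, cov_symm G ω z x, cov_symm G ω z y]
  ring

/-- **Duality.** If the total weight is nonnegative for every symmetric weight that is nonnegative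
on all triangles, then a fractional triangle decomposition exists. -/
theorem exists_decomposition
    (hdual : ∀ w : V → V → ℝ, (∀ x y, w x y = w y x) →
      (∀ x y z, G.Adj x y → G.Adj y z → G.Adj x z → 0 ≤ w x y + w y z + w x z) →
      0 ≤ ∑ x, ∑ y, Wt G w x y) :
    ∃ ω : Finset V → ℝ, (∀ T, 0 ≤ ω T ∧ ω T ≤ 1) ∧ ∀ x y, G.Adj x y → cov G ω x y = 1 := by
  obtain ⟨ω, hω, hmin⟩ := exists_min_FF G
  have hcov : ∀ T ∈ G.cliqueFinset 3, ∀ x y, x ∈ T → y ∈ T → ω T ≤ cov G ω x y := by
    intro T hT x y hx hy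
    unfold cov
    refine Finset.single_le_sum (f := ω) (fun T _ => (hω T).1) ?_
    exact Finset.mem_filter.mpr ⟨hT, hx, hy⟩
  have hD1 : ∀ T ∈ G.cliqueFinset 3, 0 ≤ DD G ω T := by
    intro T hT
    rcases (hω T).2.lt_or_eq with hlt | heq
    · have h1 : 0 ≤ 2 * DD G ω T := by
        refine deriv_nonneg (t0 := 1 - ω T) (C := ∑ x, ∑ y, Ad G x y * chi T x y ^ 2)
          (by linarith) fun t ht0 ht1 => ?_
        have h2 := hmin (fun S => ω S + if S = T then t else 0) (fun S => by
          by_cases h : S = T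
          · subst h
            simp only [if_true]
            exact ⟨by linarith [(hω S).1], by linarith⟩
          · simpa [h] using hω S)
        rw [FF_pert G hT] at h2
        linarith
      linarith
    · unfold DD
      refine Finset.sum_nonneg fun x _ => Finset.sum_nonneg fun y _ => ?_
      unfold Ad chi
      by_cases h : x ∈ T ∧ y ∈ T
      · have := hcov T hT x y h.1 h.2
        rw [if_pos h, mul_one]
        refine mul_nonneg ?_ (by linarith)
        split_ifs <;> norm_num
      · rw [if_neg h, mul_zero, zero_mul]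
  have hD2 : ∀ T ∈ G.cliqueFinset 3, ω T * DD G ω T ≤ 0 := by
    intro T hT
    rcases (hω T).1.lt_or_eq with hlt | heq
    · have h1 : 0 ≤ -(2 * DD G ω T) := by
        refine deriv_nonneg (t0 := ω T) (C := ∑ x, ∑ y, Ad G x y * chi T x y ^ 2)
          hlt fun t ht0 ht1 => ?_
        have h2 := hmin (fun S => ω S + if S = T then -t else 0) (fun S => by
          by_cases h : S = T
          · subst h
            simp only [if_true]
            exact ⟨by linarith, by linarith [(hω S).2]⟩
          · simpa [h] using hω S)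
        rw [FF_pert G hT] at h2
        have h3 : (-t) * (2 * DD G ω T) + (-t) ^ 2 * ∑ x, ∑ y, Ad G x y * chi T x y ^ 2
          = t * -(2 * DD G ω T) + t ^ 2 * ∑ x, ∑ y, Ad G x y * chi T x y ^ 2 := by ring
        linarith
      exact mul_nonpos_of_nonneg_of_nonpos hlt.le (by linarith)
    · rw [← heq, zero_mul]
  have hsum := hdual (fun x y => cov G ω x y - 1) (fun x y => by rw [cov_symm])
    (fun x y z hxy hyz hxz => by
      have hT : ({x, y, z} : Finset V) ∈ G.cliqueFinset 3 := by
        rw [SimpleGraph.mem_cliqueFinset_iff, SimpleGraph.is3Clique_iff]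
        exact ⟨x, y, z, hxy, hxz, hyz, rfl⟩
      have h1 := hD1 _ hT
      rw [DD_triangle G ω hxy hyz hxz] at h1
      linarith)
  have hW : ∑ x, ∑ y, Wt G (fun x y => cov G ω x y - 1) x y
      = ∑ x, ∑ y, Ad G x y * (cov G ω x y - 1) := by
    refine Finset.sum_congr rfl fun x _ => Finset.sum_congr rfl fun y _ => ?_
    unfold Wt Ad
    split_ifs <;> simp
  rw [hW] at hsum
  have hmain : ∑ x, ∑ y, Ad G x y * (cov G ω x y - 1) * cov G ω x y
      = ∑ T ∈ G.cliqueFinset 3, ω T * DD G ω T := by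
    have h1 : ∀ x y, Ad G x y * (cov G ω x y - 1) * cov G ω x y
        = ∑ T ∈ G.cliqueFinset 3, ω T * (Ad G x y * chi T x y * (cov G ω x y - 1)) := by
      intro x y
      have h0 : ∀ r : ℝ, r * cov G ω x y = ∑ T ∈ G.cliqueFinset 3, r * (ω T * chi T x y) := by
        intro r
        rw [cov_eq, Finset.mul_sum]
      rw [h0]
      refine Finset.sum_congr rfl fun T _ => ?_
      ring
    simp only [h1]
    unfold DD
    simp only [Finset.mul_sum]
    have h2 : ∀ x, ∑ y, ∑ T ∈ G.cliqueFinset 3, ω T * (Ad G x y * chi T x y * (cov G ω x y - 1))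
        = ∑ T ∈ G.cliqueFinset 3, ∑ y, ω T * (Ad G x y * chi T x y * (cov G ω x y - 1)) :=
      fun x => Finset.sum_comm
    simp only [h2]
    rw [Finset.sum_comm]
  have hneg : ∑ T ∈ G.cliqueFinset 3, ω T * DD G ω T ≤ 0 :=
    Finset.sum_nonpos fun T hT => hD2 T hT
  have hFF : FF G ω = ∑ x, ∑ y, Ad G x y * (cov G ω x y - 1) * cov G ω x y
      - ∑ x, ∑ y, Ad G x y * (cov G ω x y - 1) := by
    unfold FF
    simp only [← Finset.sum_sub_distrib]
    refine Finset.sum_congr rfl fun x _ => Finset.sum_congr rfl fun y _ => ?_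
    ring
  have hFF0 : FF G ω ≤ 0 := by
    rw [hFF, hmain]
    linarith
  have hAd : ∀ x y, 0 ≤ Ad G x y * (cov G ω x y - 1) ^ 2 := by
    intro x y
    refine mul_nonneg ?_ (sq_nonneg _)
    unfold Ad
    split_ifs <;> norm_num
  refine ⟨ω, hω, fun x y hxy => ?_⟩
  have h1 : Ad G x y * (cov G ω x y - 1) ^ 2 ≤ FF G ω := by
    unfold FF
    calc Ad G x y * (cov G ω x y - 1) ^ 2 ≤ ∑ y, Ad G x y * (cov G ω x y - 1) ^ 2 :=
          Finset.single_le_sum (f := fun y => Ad G x y * (cov G ω x y - 1) ^ 2)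
            (fun y _ => hAd x y) (mem_univ y)
      _ ≤ _ := Finset.single_le_sum (f := fun x => ∑ y, Ad G x y * (cov G ω x y - 1) ^ 2)
            (fun x _ => Finset.sum_nonneg fun y _ => hAd x y) (mem_univ x)
  have h2 : Ad G x y = 1 := if_pos hxy
  rw [h2, one_mul] at h1
  have h3 : (cov G ω x y - 1) ^ 2 = 0 := le_antisymm (h1.trans hFF0) (sq_nonneg _)
  have h4 : cov G ω x y - 1 = 0 := by
    rwa [sq_eq_zero_iff] at h3
  linarith

end Pool.Agent.Lib.MP_24b5ff_co.TQ
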