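import Pool.Agent.Lib.MP_24b5ff_co.TQPotential

/-!
# The pairwise inequality and the sum inequality

If `G` has minimum degree at least `3n/4` and `w` is a symmetric real weight that is nonnegative on
all triangles of `G`, then the total weight of the edges is nonnegative.
-/

namespace Pool.Agent.Lib.MP_24b5ff_co.TQ

open Finset

variable {V : Type*} (G : SimpleGraph V) [DecidableRel G.Adj]

/-- the weight, set to `0` on non-adjacent pairs -/
def Wt (w : V → V → ℝ) (x y : V) : ℝ := if G.Adj x y then w x y else 0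

/-- indicator of non-adjacent pairs -/
def Kn (x y : V) : ℝ := if G.Adj x y then 0 else 1

theorem Kn_symm (x y : V) : Kn G x y = Kn G y x := by
  unfold Kn
  exact if_congr (G.adj_comm x y) rfl rfl

/-- **The pairwise inequality** for two tight edges `xy` and `tu`. -/
theorem pair_ineq (w : V → V → ℝ)
    (htri : ∀ x y z, G.Adj x y → G.Adj y z → G.Adj x z → 0 ≤ w x y + w y z + w x z)
    (p : V → ℝ) (hp : ∀ x y, G.Adj x y → p x + p y ≤ w x y)
    {x y t u : V} (hxy : G.Adj x y) (exy : p x + p y = w x y)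
    (htu : G.Adj t u) (etu : p t + p u = w t u) {b c : ℝ}
    (hb : b = max (-(p x + p y)) (max (p x) (p y)))
    (hc : c = max (-(p t + p u)) (max (p t) (p u))) :
    (b + c) * (1 - (Kn G x t + Kn G x u + Kn G y t + Kn G y u))
      ≤ Wt G w x t + Wt G w x u + Wt G w y t + Wt G w y u := by
  have hb1 : -(p x + p y) ≤ b := by rw [hb]; exact le_max_left _ _
  have hb2 : p x ≤ b := by rw [hb]; exact (le_max_left _ _).trans (le_max_right _ _)
  have hb3 : p y ≤ b := by rw [hb]; exact (le_max_right _ _).trans (le_max_right _ _)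
  have hc1 : -(p t + p u) ≤ c := by rw [hc]; exact le_max_left _ _
  have hc2 : p t ≤ c := by rw [hc]; exact (le_max_left _ _).trans (le_max_right _ _)
  have hc3 : p u ≤ c := by rw [hc]; exact (le_max_right _ _).trans (le_max_right _ _)
  by_cases hxt : G.Adj x t <;> by_cases hxu : G.Adj x u <;>
    by_cases hyt : G.Adj y t <;> by_cases hyu : G.Adj y u
  -- all four adjacent
  · have p1 := hp x t hxt
    have p2 := hp x u hxu
    have p3 := hp y t hyt
    have p4 := hp y u hyu
    have t1 := htri x y t hxy hyt hxt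
    have t2 := htri x y u hxy hyu hxu
    have t3 := htri x t u hxt htu hxu
    have t4 := htri y t u hyt htu hyu
    have hb4 : b ≤ (w x t + w x u + w y t + w y u) / 2 := by
      rw [hb]
      refine max_le (by linarith) (max_le (by linarith) (by linarith))
    have hc4 : c ≤ (w x t + w x u + w y t + w y u) / 2 := by
      rw [hc]
      refine max_le (by linarith) (max_le (by linarith) (by linarith))
    simp only [Kn, Wt, hxt, hxu, hyt, hyu, if_true]
    linarith
  -- the other fifteen cases
  all_goals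
    (try have p1 := hp x t hxt)
    (try have p2 := hp x u hxu)
    (try have p3 := hp y t hyt)
    (try have p4 := hp y u hyu)
    (try have t1 := htri x y t hxy hyt hxt)
    (try have t2 := htri x y u hxy hyu hxu)
    (try have t3 := htri x t u hxt htu hxu)
    (try have t4 := htri y t u hyt htu hyu)
    simp only [Kn, Wt, hxt, hxu, hyt, hyu, if_true, if_false]
    linarith

variable [Fintype V]

theorem sum_Kn (x : V) : ∑ y, Kn G x y = (Fintype.card V : ℝ) - G.degree x := by
  classical
  unfold Kn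
  have e1 : (Finset.univ.filter (fun y => G.Adj x y)).card = G.degree x := by
    rw [← G.card_neighborFinset_eq_degree, SimpleGraph.neighborFinset_eq_filter]
  have h := Finset.card_filter_add_card_filter_not (s := (Finset.univ : Finset V))
    (fun y => G.Adj x y)
  rw [e1, Finset.card_univ] at h
  have h3 : ((G.degree x : ℝ) + ((Finset.univ.filter (fun y => ¬ G.Adj x y)).card : ℝ))
      = (Fintype.card V : ℝ) := by exact_mod_cast h
  rw [Finset.sum_ite, Finset.sum_const_zero, zero_add, Finset.sum_const, nsmul_eq_mul, mul_one]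
  linarith

/-- **The sum inequality.** -/
theorem sum_Wt_nonneg [DecidableEq V] (hG : ∀ v, 3 * Fintype.card V ≤ 4 * G.degree v)
    (w : V → V → ℝ) (hw : ∀ x y, w x y = w y x)
    (htri : ∀ x y z, G.Adj x y → G.Adj y z → G.Adj x z → 0 ≤ w x y + w y z + w x z) :
    0 ≤ ∑ x, ∑ y, Wt G w x y := by
  rcases isEmpty_or_nonempty V with hV | hV
  · simp
  obtain ⟨p, σ, hp, hσ⟩ := exists_potential_perm G hG w hw
  set b : V → ℝ := fun z => max (-(p z + p (σ z))) (max (p z) (p (σ z))) with hb
  have hb0 : ∀ z, 0 ≤ b z := by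
    intro z
    have h1 : -(p z + p (σ z)) ≤ b z := le_max_left _ _
    have h2 : p z ≤ b z := (le_max_left _ _).trans (le_max_right _ _)
    have h3 : p (σ z) ≤ b z := (le_max_right _ _).trans (le_max_right _ _)
    linarith
  set k : V → V → ℝ := fun z t => Kn G z t + Kn G z (σ t) + Kn G (σ z) t + Kn G (σ z) (σ t)
    with hk
  have hpair : ∀ z t, (b z + b t) * (1 - k z t)
      ≤ Wt G w z t + Wt G w z (σ t) + Wt G w (σ z) t + Wt G w (σ z) (σ t) := fun z t =>
    pair_ineq G w htri p hp (hσ z).1 (hσ z).2 (hσ t).1 (hσ t).2 rfl rfl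
  have hsum := Finset.sum_le_sum fun z (_ : z ∈ (Finset.univ : Finset V)) =>
    Finset.sum_le_sum fun t (_ : t ∈ (Finset.univ : Finset V)) => hpair z t
  have e1 : ∑ z, ∑ t, Wt G w z (σ t) = ∑ z, ∑ t, Wt G w z t :=
    Finset.sum_congr rfl fun z _ => Equiv.sum_comp σ fun t => Wt G w z t
  have e2 : ∑ z, ∑ t, Wt G w (σ z) t = ∑ z, ∑ t, Wt G w z t :=
    Equiv.sum_comp σ fun z => ∑ t, Wt G w z t
  have e3 : ∑ z, ∑ t, Wt G w (σ z) (σ t) = ∑ z, ∑ t, Wt G w z t := by
    rw [← e1]
    exact Equiv.sum_comp σ fun z => ∑ t, Wt G w z (σ t)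
  have e4 : ∑ z, ∑ t, (Wt G w z t + Wt G w z (σ t) + Wt G w (σ z) t + Wt G w (σ z) (σ t))
      = 4 * ∑ z, ∑ t, Wt G w z t := by
    simp only [Finset.sum_add_distrib]
    rw [e1, e2, e3]
    ring
  have hksymm : ∀ z t, k z t = k t z := by
    intro z t
    simp only [hk]
    rw [Kn_symm G z t, Kn_symm G z (σ t), Kn_symm G (σ z) t, Kn_symm G (σ z) (σ t)]
    ring
  have e5 : ∑ z, ∑ t, (b z + b t) * (1 - k z t) = 2 * ∑ z, b z * ∑ t, (1 - k z t) := by
    have h1 : ∀ z t, (b z + b t) * (1 - k z t) = b z * (1 - k z t) + b t * (1 - k z t) :=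
      fun z t => by ring
    simp only [h1, Finset.sum_add_distrib]
    have h2 : ∑ z, ∑ t, b t * (1 - k z t) = ∑ z, ∑ t, b z * (1 - k z t) := by
      rw [Finset.sum_comm]
      exact Finset.sum_congr rfl fun z _ => Finset.sum_congr rfl fun t _ => by rw [hksymm t z]
    have h3 : ∑ z, b z * ∑ t, (1 - k z t) = ∑ z, ∑ t, b z * (1 - k z t) :=
      Finset.sum_congr rfl fun z _ => Finset.mul_sum _ _ _
    rw [h2, h3, two_mul]
  have hM : ∀ z, ∑ t, Kn G z t ≤ (Fintype.card V : ℝ) / 4 := by
    intro z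
    rw [sum_Kn]
    have : (3 * (Fintype.card V : ℝ)) ≤ 4 * (G.degree z : ℝ) := by exact_mod_cast hG z
    linarith
  have e6 : ∀ z, 0 ≤ ∑ t, (1 - k z t) := by
    intro z
    simp only [hk, Finset.sum_sub_distrib, Finset.sum_add_distrib]
    rw [Equiv.sum_comp σ fun t => Kn G z t, Equiv.sum_comp σ fun t => Kn G (σ z) t]
    have h1 : ∑ _t : V, (1:ℝ) = (Fintype.card V : ℝ) := by simp
    rw [h1]
    linarith [hM z, hM (σ z)]
  have e7 : 0 ≤ ∑ z, b z * ∑ t, (1 - k z t) :=
    Finset.sum_nonneg fun z _ => mul_nonneg (hb0 z) (e6 z)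
  rw [e4, e5] at hsum
  linarith

end Pool.Agent.Lib.MP_24b5ff_co.TQ
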