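import Pool.Agent.Lib.MP_24b5ff_co.TQDecomp

/-!
# The lower bound graph

The blow-up of the four-cycle with cliques inside the parts.
-/

namespace Pool.Agent.Lib.MP_24b5ff_co.TQ

open Finset

section general

variable {V : Type*} [Fintype V] [DecidableEq V] (G : SimpleGraph V) [DecidableRel G.Adj]

/-- the total weight of the ordered adjacent pairs inside `T` -/
def TW (w : V → V → ℝ) (T : Finset V) : ℝ := ∑ x, ∑ y, Ad G x y * chi T x y * w x y

theorem TW_triangle (w : V → V → ℝ) (hw : ∀ x y, w x y = w y x) {x y z : V} (hxy : G.Adj x y)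
    (hyz : G.Adj y z) (hxz : G.Adj x z) :
    TW G w {x, y, z} = 2 * (w x y + w y z + w x z) := by
  have nxy := G.ne_of_adj hxy
  have nyz := G.ne_of_adj hyz
  have nxz := G.ne_of_adj hxz
  have e : ∀ f : V → ℝ, ∑ a ∈ ({x, y, z} : Finset V), f a = f x + f y + f z := by
    intro f
    rw [Finset.sum_insert (by simp [nxy, nxz]), Finset.sum_insert (by simp [nyz]),
      Finset.sum_singleton]
    ring
  have h1 : TW G w {x, y, z} = ∑ a ∈ ({x, y, z} : Finset V), ∑ b ∈ ({x, y, z} : Finset V),
      Ad G a b * w a b := by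
    unfold TW
    rw [← Finset.sum_subset (Finset.subset_univ ({x, y, z} : Finset V))]
    · refine Finset.sum_congr rfl fun a ha => ?_
      rw [← Finset.sum_subset (Finset.subset_univ ({x, y, z} : Finset V))]
      · refine Finset.sum_congr rfl fun b hb => ?_
        unfold chi
        rw [if_pos ⟨ha, hb⟩, mul_one]
      · intro b _ hb
        unfold chi
        rw [if_neg (fun h => hb h.2), mul_zero, zero_mul]
    · intro a _ ha
      refine Finset.sum_eq_zero fun b _ => ?_
      unfold chi
      rw [if_neg (fun h => ha h.1), mul_zero, zero_mul]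
  rw [h1]
  simp only [e]
  unfold Ad
  simp only [hxy, hyz, hxz, hxy.symm, hyz.symm, hxz.symm, SimpleGraph.irrefl, if_true, if_false]
  rw [hw y x, hw z x, hw z y]
  ring

/-- A graph with a fractional triangle decomposition has nonnegative total weight for every
symmetric weight that is nonnegative on all triangles. -/
theorem sum_nonneg_of_decomposition {ω : Finset V → ℝ} (h0 : ∀ T ∈ G.cliqueFinset 3, 0 ≤ ω T)
    (h1 : ∀ x y, G.Adj x y → cov G ω x y = 1) (w : V → V → ℝ) (hw : ∀ x y, w x y = w y x)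
    (htri : ∀ x y z, G.Adj x y → G.Adj y z → G.Adj x z → 0 ≤ w x y + w y z + w x z) :
    0 ≤ ∑ x, ∑ y, Ad G x y * w x y := by
  have hmain : ∑ x, ∑ y, Ad G x y * w x y = ∑ T ∈ G.cliqueFinset 3, ω T * TW G w T := by
    have h2 : ∀ x y, Ad G x y * w x y
        = ∑ T ∈ G.cliqueFinset 3, ω T * (Ad G x y * chi T x y * w x y) := by
      intro x y
      have h3 : Ad G x y * w x y = Ad G x y * w x y * cov G ω x y := by
        by_cases h : G.Adj x y
        · rw [h1 x y h, mul_one]
        · unfold Ad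
          rw [if_neg h]; ring
      rw [h3, cov_eq, Finset.mul_sum]
      refine Finset.sum_congr rfl fun T _ => ?_
      ring
    simp only [h2]
    unfold TW
    simp only [Finset.mul_sum]
    have h4 : ∀ x, ∑ y, ∑ T ∈ G.cliqueFinset 3, ω T * (Ad G x y * chi T x y * w x y)
        = ∑ T ∈ G.cliqueFinset 3, ∑ y, ω T * (Ad G x y * chi T x y * w x y) :=
      fun x => Finset.sum_comm
    simp only [h4]
    rw [Finset.sum_comm]
  rw [hmain]
  refine Finset.sum_nonneg fun T hT => mul_nonneg (h0 T hT) ?_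
  rw [SimpleGraph.mem_cliqueFinset_iff, SimpleGraph.is3Clique_iff] at hT
  obtain ⟨x, y, z, hxy, hxz, hyz, rfl⟩ := hT
  rw [TW_triangle G w hw hxy hyz hxz]
  have := htri x y z hxy hyz hxz
  linarith

end general

/-- The blow-up of the four-cycle with parts of size `m` that are cliques: all pairs of distinct
vertices are adjacent, except the pairs in opposite parts. -/
def blowup (m : ℕ) : SimpleGraph (Fin 4 × Fin m) where
  Adj u v := u ≠ v ∧ u.1 + 2 ≠ v.1
  symm := ⟨by
    intro u v h
    refine ⟨h.1.symm, fun he => h.2 ?_⟩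
    have key : ∀ a b : Fin 4, b + 2 = a → a + 2 = b := by decide
    exact key _ _ he⟩
  loopless := ⟨fun u h => h.1 rfl⟩

instance (m : ℕ) : DecidableRel (blowup m).Adj := fun u v =>
  inferInstanceAs (Decidable (u ≠ v ∧ u.1 + 2 ≠ v.1))

theorem blowup_adj {m : ℕ} (u v : Fin 4 × Fin m) :
    (blowup m).Adj u v ↔ u ≠ v ∧ u.1 + 2 ≠ v.1 := Iff.rfl

theorem blowup_degree {m : ℕ} (u : Fin 4 × Fin m) : (blowup m).degree u = 3 * m - 1 := by
  rw [← (blowup m).card_neighborFinset_eq_degree]
  have h1 : (blowup m).neighborFinset u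
      = (((Finset.univ.filter (fun a : Fin 4 => u.1 + 2 ≠ a)) ×ˢ
        (Finset.univ : Finset (Fin m))).erase u) := by
    ext v
    rw [SimpleGraph.mem_neighborFinset, blowup_adj, Finset.mem_erase, Finset.mem_product]
    simp only [Finset.mem_filter, Finset.mem_univ, true_and, and_true]
    constructor
    · rintro ⟨h1, h2⟩
      exact ⟨h1.symm, h2⟩
    · rintro ⟨h1, h2⟩
      exact ⟨h1.symm, h2⟩
  have key : ∀ a : Fin 4, (Finset.univ.filter (fun b : Fin 4 => a + 2 ≠ b)).card = 3 := by
    decide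
  have key2 : ∀ a : Fin 4, a + 2 ≠ a := by decide
  rw [h1, Finset.card_erase_of_mem, Finset.card_product, key, Finset.card_univ, Fintype.card_fin]
  rw [Finset.mem_product]
  simp [key2]

/-- the weight: `2` inside the parts and `-1` between the parts -/
def bw (m : ℕ) (u v : Fin 4 × Fin m) : ℝ := if u.1 = v.1 then 2 else -1

theorem bw_symm (m : ℕ) (u v : Fin 4 × Fin m) : bw m u v = bw m v u := by
  unfold bw
  exact if_congr eq_comm rfl rfl

theorem bw_triangle (m : ℕ) (u v z : Fin 4 × Fin m) (h1 : (blowup m).Adj u v)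
    (h2 : (blowup m).Adj v z) (h3 : (blowup m).Adj u z) :
    0 ≤ bw m u v + bw m v z + bw m u z := by
  have key : ∀ a b c : Fin 4, a + 2 ≠ b → b + 2 ≠ c → a + 2 ≠ c →
      (0:ℤ) ≤ (if a = b then 2 else -1) + (if b = c then 2 else -1)
        + (if a = c then 2 else -1) := by decide
  have := key u.1 v.1 z.1 h1.2 h2.2 h3.2
  have h4 : ((0:ℤ):ℝ) ≤ (((if u.1 = v.1 then 2 else -1) + (if v.1 = z.1 then 2 else -1)
        + (if u.1 = z.1 then 2 else -1) : ℤ) : ℝ) := by exact_mod_cast this
  unfold bw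
  push_cast at h4
  exact h4

theorem sum_fst (m : ℕ) (F : Fin 4 → ℝ) :
    ∑ v : Fin 4 × Fin m, F v.1 = (m : ℝ) * ∑ b, F b := by
  rw [Fintype.sum_prod_type, Finset.mul_sum]
  simp only [Finset.sum_const, Finset.card_univ, Fintype.card_fin, nsmul_eq_mul]

theorem bw_sum (m : ℕ) (u : Fin 4 × Fin m) :
    ∑ v, Ad (blowup m) u v * bw m u v = -2 := by
  set F : Fin 4 → ℝ := fun b => if u.1 + 2 ≠ b then (if u.1 = b then (2:ℝ) else -1) else 0
    with hF
  have h1 : ∀ v, Ad (blowup m) u v * bw m u v = F v.1 - (if v = u then 2 else 0) := by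
    intro v
    have key2 : ∀ a : Fin 4, a + 2 ≠ a := by decide
    simp only [hF]
    unfold Ad bw
    by_cases huv : v = u
    · subst huv
      simp [key2]
    · have h2 : (blowup m).Adj u v ↔ u.1 + 2 ≠ v.1 := by
        rw [blowup_adj]
        exact ⟨fun h => h.2, fun h => ⟨fun h' => huv h'.symm, h⟩⟩
      by_cases h3 : u.1 + 2 = v.1
      · simp [h2, h3, huv]
      · simp [h2, h3, huv]
  simp only [h1]
  rw [Finset.sum_sub_distrib, Finset.sum_ite_eq' Finset.univ u, if_pos (Finset.mem_univ u),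
    sum_fst]
  have key : ∀ a : Fin 4, ∑ b : Fin 4, (if a + 2 ≠ b then (if a = b then (2:ℤ) else -1) else 0)
      = 0 := by decide
  have h5 : ∑ b : Fin 4, F b = 0 := by
    simp only [hF]
    have := key u.1
    have h6 : ((∑ b : Fin 4, (if u.1 + 2 ≠ b then (if u.1 = b then (2:ℤ) else -1) else 0) : ℤ) : ℝ)
      = ((0:ℤ):ℝ) := by rw [this]
    push_cast at h6
    exact h6
  rw [h5]
  norm_num

/-- The blow-up has no fractional triangle decomposition. -/
theorem blowup_no_decomposition {m : ℕ} (hm : 0 < m) {ω : Finset (Fin 4 × Fin m) → ℝ}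
    (h0 : ∀ T ∈ (blowup m).cliqueFinset 3, 0 ≤ ω T)
    (h1 : ∀ x y, (blowup m).Adj x y → cov (blowup m) ω x y = 1) : False := by
  have h := sum_nonneg_of_decomposition (blowup m) h0 h1 (bw m) (bw_symm m) (bw_triangle m)
  simp only [bw_sum] at h
  rw [Finset.sum_const, Finset.card_univ, Fintype.card_prod, Fintype.card_fin, Fintype.card_fin,
    nsmul_eq_mul] at h
  have : (0:ℝ) < m := by exact_mod_cast hm
  push_cast at h
  linarith

end Pool.Agent.Lib.MP_24b5ff_co.TQ
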