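import Mathlib

/-!
# Optimal potentials and a tight permutation

For a graph `G` of minimum degree at least `3n/4` and a symmetric weight `w` there are vertex
potentials `p` with `p x + p y ≤ w x y` for every edge `xy`, and a permutation `σ` of the vertices
such that every pair `x, σ x` is an edge with `p x + p (σ x) = w x (σ x)`.
-/

namespace Pool.Agent.Lib.MP_24b5ff_co.TQ

open Finset

variable {V : Type*} [Fintype V] [DecidableEq V] (G : SimpleGraph V) [DecidableRel G.Adj]

/-- A potential of maximal total value exists. -/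
theorem exists_max_potential [Nonempty V] (hG : ∀ v, 3 * Fintype.card V ≤ 4 * G.degree v)
    (w : V → V → ℝ) :
    ∃ p : V → ℝ, (∀ x y, G.Adj x y → p x + p y ≤ w x y) ∧
      ∀ q : V → ℝ, (∀ x y, G.Adj x y → q x + q y ≤ w x y) → ∑ x, q x ≤ ∑ x, p x := by
  obtain ⟨C, hC0, hC⟩ : ∃ C : ℝ, 0 ≤ C ∧ ∀ x y, |w x y| ≤ C := by
    refine ⟨∑ x, ∑ y, |w x y|, by positivity, fun x y => ?_⟩
    calc |w x y| ≤ ∑ y, |w x y| :=
          Finset.single_le_sum (f := fun y => |w x y|) (fun _ _ => abs_nonneg _) (mem_univ y)
      _ ≤ ∑ x, ∑ y, |w x y| :=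
          Finset.single_le_sum (f := fun x => ∑ y, |w x y|) (fun _ _ => by positivity)
            (mem_univ x)
  set n : ℝ := (Fintype.card V : ℝ) with hn
  have hn0 : 0 < n := by
    rw [hn]; exact_mod_cast Fintype.card_pos
  have hup : ∀ p : V → ℝ, (∀ x y, G.Adj x y → p x + p y ≤ w x y) →
      -(n * C / 2) ≤ ∑ x, p x → ∀ x, p x ≤ 3 * C := by
    intro p hp hs x
    obtain ⟨z, _, hz⟩ := Finset.exists_max_image Finset.univ p ⟨x, mem_univ x⟩
    refine (hz x (mem_univ x)).trans ?_
    have h1 : ∑ y, p y ≤ ∑ y, (if G.Adj z y then C - p z else p z) := by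
      refine Finset.sum_le_sum fun y _ => ?_
      split_ifs with h
      · have := hp z y h
        have := (abs_le.mp (hC z y)).2
        linarith
      · exact hz y (mem_univ y)
    have h2 : ∑ y, (if G.Adj z y then C - p z else p z)
        = (G.degree z : ℝ) * (C - p z) + (n - G.degree z) * p z := by
      rw [Finset.sum_ite, Finset.sum_const, Finset.sum_const, nsmul_eq_mul, nsmul_eq_mul]
      have e1 : (Finset.univ.filter (fun y => G.Adj z y)).card = G.degree z := by
        rw [← G.card_neighborFinset_eq_degree, SimpleGraph.neighborFinset_eq_filter]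
      have e2 : ((Finset.univ.filter (fun y => ¬ G.Adj z y)).card : ℝ) = n - G.degree z := by
        have := Finset.card_filter_add_card_filter_not (s := (Finset.univ : Finset V))
          (fun y => G.Adj z y)
        rw [e1, Finset.card_univ] at this
        have h3 : ((G.degree z : ℝ) + ((Finset.univ.filter (fun y => ¬ G.Adj z y)).card : ℝ))
            = n := by
          rw [hn]; exact_mod_cast this
        linarith
      rw [e1, e2]
    rw [h2] at h1
    have hd : 3 * n ≤ 4 * (G.degree z : ℝ) := by
      rw [hn]; exact_mod_cast hG z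
    have hd2 : (G.degree z : ℝ) ≤ n := by
      rw [hn]; exact_mod_cast (G.degree_lt_card_verts z).le
    by_contra hcon
    push Not at hcon
    have h4 : (2 * (G.degree z : ℝ) - n) * p z ≥ (n / 2) * p z :=
      mul_le_mul_of_nonneg_right (by linarith) (by linarith)
    have h5 : (G.degree z : ℝ) * C ≤ n * C := mul_le_mul_of_nonneg_right hd2 hC0
    nlinarith
  have hlow : ∀ p : V → ℝ, (∀ x y, G.Adj x y → p x + p y ≤ w x y) →
      -(n * C / 2) ≤ ∑ x, p x → ∀ x, -(n * C / 2) - n * (3 * C) ≤ p x := by
    intro p hp hs x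
    have h1 := hup p hp hs
    have h2 : ∑ y, p y = p x + ∑ y ∈ Finset.univ.erase x, p y :=
      (Finset.add_sum_erase _ _ (mem_univ x)).symm
    have h3 : ∑ y ∈ Finset.univ.erase x, p y ≤ ∑ y ∈ Finset.univ.erase x, 3 * C :=
      Finset.sum_le_sum fun y _ => h1 y
    have h4 : ∑ y ∈ Finset.univ.erase x, 3 * C ≤ ∑ _y : V, 3 * C :=
      Finset.sum_le_sum_of_subset_of_nonneg (Finset.erase_subset _ _)
        fun _ _ _ => by positivity
    have h5 : ∑ _y : V, 3 * C = n * (3 * C) := by
      rw [Finset.sum_const, Finset.card_univ, nsmul_eq_mul, ← hn]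
    linarith
  set A : Set (V → ℝ) :=
    {p | (∀ x y, G.Adj x y → p x + p y ≤ w x y) ∧ -(n * C / 2) ≤ ∑ x, p x} with hA
  have hAc : IsClosed A := by
    have e : A = (⋂ x, ⋂ y, ⋂ _ : G.Adj x y, {p : V → ℝ | p x + p y ≤ w x y})
        ∩ {p : V → ℝ | -(n * C / 2) ≤ ∑ x, p x} := by
      ext p
      simp [hA]
    rw [e]
    refine IsClosed.inter ?_ ?_
    · refine isClosed_iInter fun x => isClosed_iInter fun y => isClosed_iInter fun _ => ?_
      exact isClosed_le (by fun_prop) continuous_const
    · exact isClosed_le continuous_const (by fun_prop)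
  have hAk : IsCompact A := by
    refine IsCompact.of_isClosed_subset
      (isCompact_univ_pi fun _ : V => isCompact_Icc (a := -(n * C / 2) - n * (3 * C))
        (b := 3 * C)) hAc ?_
    intro p hp x _
    exact ⟨hlow p hp.1 hp.2 x, hup p hp.1 hp.2 x⟩
  have hne : A.Nonempty := by
    refine ⟨fun _ => -(C / 2), fun x y _ => ?_, ?_⟩
    · have := (abs_le.mp (hC x y)).1
      linarith
    · rw [Finset.sum_const, Finset.card_univ, nsmul_eq_mul, ← hn]
      linarith
  obtain ⟨p, hpA, hmax⟩ := hAk.exists_isMaxOn hne
    (f := fun p : V → ℝ => ∑ x, p x) (by fun_prop)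
  refine ⟨p, hpA.1, fun q hq => ?_⟩
  by_cases h : -(n * C / 2) ≤ ∑ x, q x
  · exact hmax (a := q) ⟨hq, h⟩
  · push Not at h
    exact (h.le).trans hpA.2

/-- A positive lower bound for the positive values of a real function on a finite type. -/
theorem exists_pos_lower {ι : Type*} [Fintype ι] (f : ι → ℝ) :
    ∃ ε : ℝ, 0 < ε ∧ ∀ i, 0 < f i → ε ≤ f i := by
  classical
  rcases (Finset.univ.filter (fun i => 0 < f i)).eq_empty_or_nonempty with h | h
  · refine ⟨1, one_pos, fun i hi => ?_⟩
    have : i ∈ Finset.univ.filter (fun i => 0 < f i) := by simp [hi]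
    rw [h] at this
    exact absurd this (Finset.notMem_empty _)
  · obtain ⟨j, hj, hmin⟩ := Finset.exists_min_image _ f h
    refine ⟨f j, (Finset.mem_filter.mp hj).2, fun i hi => hmin i ?_⟩
    simp [hi]

/-- **Potentials and a tight permutation.** -/
theorem exists_potential_perm [Nonempty V] (hG : ∀ v, 3 * Fintype.card V ≤ 4 * G.degree v)
    (w : V → V → ℝ) (hw : ∀ x y, w x y = w y x) :
    ∃ (p : V → ℝ) (σ : Equiv.Perm V), (∀ x y, G.Adj x y → p x + p y ≤ w x y) ∧
      ∀ x, G.Adj x (σ x) ∧ p x + p (σ x) = w x (σ x) := by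
  obtain ⟨p, hp, hmax⟩ := exists_max_potential G hG w
  set H : V → Finset V := fun x => Finset.univ.filter
    (fun y => G.Adj x y ∧ p x + p y = w x y) with hH
  have hall : ∀ s : Finset V, s.card ≤ (s.biUnion H).card := by
    intro s
    by_contra hcon
    push Not at hcon
    set N := s.biUnion H with hN
    obtain ⟨ε, hε, hεle⟩ := exists_pos_lower
      (fun e : V × V => (w e.1 e.2 - (p e.1 + p e.2)) / 2)
    set q : V → ℝ := fun x => p x + ε * ((if x ∈ s then 1 else 0) - (if x ∈ N then 1 else 0))
      with hq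
    have hmem : ∀ x y, x ∈ s → G.Adj x y → p x + p y = w x y → y ∈ N := by
      intro x y hx hxy he
      rw [hN, Finset.mem_biUnion]
      exact ⟨x, hx, by simp [hH, hxy, he]⟩
    have hqf : ∀ x y, G.Adj x y → q x + q y ≤ w x y := by
      intro x y hxy
      rcases (hp x y hxy).lt_or_eq with hlt | heq
      · have h1 := hεle (x, y) (by simp only; linarith)
        simp only at h1
        have h2 : ∀ z, (if z ∈ s then (1:ℝ) else 0) - (if z ∈ N then 1 else 0) ≤ 1 := by
          intro z
          split_ifs <;> norm_num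
        have h3 := mul_le_mul_of_nonneg_left (h2 x) hε.le
        have h4 := mul_le_mul_of_nonneg_left (h2 y) hε.le
        simp only [hq]
        linarith
      · have hx := fun h => hmem x y h hxy heq
        have hy := fun h => hmem y x h hxy.symm (by rw [add_comm, heq, hw])
        have h5 : ((if x ∈ s then (1:ℝ) else 0) - (if x ∈ N then 1 else 0))
            + ((if y ∈ s then (1:ℝ) else 0) - (if y ∈ N then 1 else 0)) ≤ 0 := by
          by_cases h1 : x ∈ s <;> by_cases h2 : y ∈ s
          · simp [h1, h2, hx h1, hy h2]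
          · simp only [h1, h2, hx h1, if_true, if_false]
            split_ifs <;> norm_num
          · simp only [h1, h2, hy h2, if_true, if_false]
            split_ifs <;> norm_num
          · simp only [h1, h2, if_false]
            split_ifs <;> norm_num
        have h6 := mul_le_mul_of_nonneg_left h5 hε.le
        simp only [hq]
        linarith
    have h7 := hmax q hqf
    have h8 : ∑ x, q x = ∑ x, p x + ε * ((s.card : ℝ) - N.card) := by
      simp only [hq]
      rw [Finset.sum_add_distrib, ← Finset.mul_sum, Finset.sum_sub_distrib]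
      simp
    have h9 : 0 < ε * ((s.card : ℝ) - N.card) := by
      have : (N.card : ℝ) < s.card := by exact_mod_cast hcon
      exact mul_pos hε (by linarith)
    linarith
  obtain ⟨f, hf, hft⟩ := (Finset.all_card_le_biUnion_card_iff_exists_injective H).mp hall
  have hbij : Function.Bijective f := Finite.injective_iff_bijective.mp hf
  refine ⟨p, Equiv.ofBijective f hbij, hp, fun x => ?_⟩
  have := hft x
  simp only [hH, Finset.mem_filter, Finset.mem_univ, true_and] at this
  exact this

end Pool.Agent.Lib.MP_24b5ff_co.TQ
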