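import Mathlib

/-!
# Weighted graphs: a variational solution of the vertex-potential system

`W` is a symmetric weight function with values in `[0,1]` and zero diagonal.
-/

namespace Pool.Agent.Lib.MP_24b5ff_co

open Finset

variable {V : Type*} [Fintype V]

/-- symmetric weights in `[0,1]`, zero on the diagonal -/
structure IsWeight (W : V → V → ℝ) : Prop where
  symm : ∀ x y, W x y = W y x
  nonneg : ∀ x y, 0 ≤ W x y
  le_one : ∀ x y, W x y ≤ 1
  diag : ∀ x, W x x = 0

/-- weighted codegree -/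
def cod (W : V → V → ℝ) (x y : V) : ℝ := ∑ z, W x z * W y z

/-- weighted degree -/
def dg (W : V → V → ℝ) (x : V) : ℝ := ∑ z, W x z

/-- weighted co-degree of the complement (including the vertex itself) -/
def hh (W : V → V → ℝ) (x : V) : ℝ := ∑ z, (1 - W x z)

/-- the operator `M` -/
def mm (W g : V → V → ℝ) (x y : V) : ℝ :=
  cod W x y * g x y - ∑ z, W x z * (1 - W y z) * g x z - ∑ z, W y z * (1 - W x z) * g y z

/-- vertex sums -/
def GG (W g : V → V → ℝ) (x : V) : ℝ := ∑ z, W x z * g x z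

/-- the quadratic form of `M` -/
noncomputable def EE (W g : V → V → ℝ) : ℝ :=
  (∑ a, ∑ b, W a b * cod W a b * g a b ^ 2) / 2
    - ∑ a, ∑ b, ∑ c, W a b * W a c * (1 - W b c) * (g a b * g a c)

/-- the functional that is minimised -/
noncomputable def Psi (W g : V → V → ℝ) : ℝ :=
  EE W g / 2 + (∑ x, (max 0 (1 / 2 - GG W g x)) ^ 2) / 2

theorem dg_eq (W : V → V → ℝ) (x : V) : dg W x = (Fintype.card V : ℝ) - hh W x := by
  have h : (Fintype.card V : ℝ) = ∑ _z : V, (1 : ℝ) := by simp
  rw [h, dg, hh, ← Finset.sum_sub_distrib]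
  refine Finset.sum_congr rfl fun z _ => ?_
  ring

theorem cod_symm (W : V → V → ℝ) (x y : V) : cod W x y = cod W y x := by
  unfold cod
  exact Finset.sum_congr rfl fun z _ => mul_comm _ _

theorem cod_ge {W : V → V → ℝ} (hW : IsWeight W) (x y : V) :
    (Fintype.card V : ℝ) - hh W x - hh W y ≤ cod W x y := by
  have h : (Fintype.card V : ℝ) = ∑ _z : V, (1 : ℝ) := by simp
  have e : cod W x y - ((Fintype.card V : ℝ) - hh W x - hh W y)
      = ∑ z, (1 - W x z) * (1 - W y z) := by
    rw [h, cod, hh, hh, ← Finset.sum_sub_distrib, ← Finset.sum_sub_distrib,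
      ← Finset.sum_sub_distrib]
    refine Finset.sum_congr rfl fun z _ => ?_
    ring
  have p : 0 ≤ ∑ z, (1 - W x z) * (1 - W y z) :=
    Finset.sum_nonneg fun z _ =>
      mul_nonneg (by linarith [hW.le_one x z]) (by linarith [hW.le_one y z])
  linarith

/-- sum of `W x z (1 - W y z)` -/
theorem sum_cherry {W : V → V → ℝ} (x y : V) :
    ∑ z, W x z * (1 - W y z) = dg W x - cod W x y := by
  rw [dg, cod, ← Finset.sum_sub_distrib]
  exact Finset.sum_congr rfl fun z _ => by ring

theorem max_sq_le (s t : ℝ) :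
    (max 0 (s - t)) ^ 2 ≤ (max 0 s) ^ 2 - 2 * (max 0 s) * t + t ^ 2 := by
  rcases le_total 0 s with h | h <;> rcases le_total 0 (s - t) with h' | h'
  · rw [max_eq_right h, max_eq_right h']; nlinarith
  · rw [max_eq_right h, max_eq_left h']; nlinarith [sq_nonneg (s - t)]
  · rw [max_eq_left h, max_eq_right h']; nlinarith
  · rw [max_eq_left h, max_eq_left h']; nlinarith [sq_nonneg t]

theorem sum_mm {W : V → V → ℝ} (hW : IsWeight W) {g φ : V → V → ℝ}
    (_hg : ∀ x y, g x y = g y x) (hφ : ∀ x y, φ x y = φ y x) :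
    ∑ a, ∑ b, W a b * φ a b * mm W g a b
      = ∑ a, ∑ b, W a b * cod W a b * (g a b * φ a b)
        - 2 * ∑ a, ∑ b, ∑ c, W a b * W a c * (1 - W b c) * (φ a b * g a c) := by
  have e1 : ∀ a b, W a b * φ a b * mm W g a b
      = W a b * cod W a b * (g a b * φ a b)
        - (∑ c, W a b * W a c * (1 - W b c) * (φ a b * g a c))
        - ∑ c, W a b * W b c * (1 - W a c) * (φ a b * g b c) := by
    intro a b
    unfold mm
    rw [mul_sub, mul_sub, Finset.mul_sum, Finset.mul_sum]
    congr 1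
    · congr 1
      · ring
      · exact Finset.sum_congr rfl fun c _ => by ring
    · exact Finset.sum_congr rfl fun c _ => by ring
  have e2 : ∑ a, ∑ b, ∑ c, W a b * W b c * (1 - W a c) * (φ a b * g b c)
      = ∑ a, ∑ b, ∑ c, W a b * W a c * (1 - W b c) * (φ a b * g a c) := by
    rw [Finset.sum_comm]
    refine Finset.sum_congr rfl fun a _ => Finset.sum_congr rfl fun b _ =>
      Finset.sum_congr rfl fun c _ => ?_
    rw [hW.symm b a, hφ b a]
  simp only [e1, Finset.sum_sub_distrib]
  rw [e2]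
  ring

theorem EE_add {W : V → V → ℝ} (hW : IsWeight W) {g φ : V → V → ℝ}
    (hg : ∀ x y, g x y = g y x) (hφ : ∀ x y, φ x y = φ y x) (t : ℝ) :
    EE W (fun a b => g a b + t * φ a b)
      = EE W g + t * (∑ a, ∑ b, W a b * φ a b * mm W g a b) + t ^ 2 * EE W φ := by
  have e3 : ∑ a, ∑ b, ∑ c, W a b * W a c * (1 - W b c) * (g a b * φ a c)
      = ∑ a, ∑ b, ∑ c, W a b * W a c * (1 - W b c) * (φ a b * g a c) := by
    refine Finset.sum_congr rfl fun a _ => ?_
    rw [Finset.sum_comm]
    refine Finset.sum_congr rfl fun b _ => Finset.sum_congr rfl fun c _ => ?_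
    rw [hW.symm c b]
    ring
  rw [sum_mm hW hg hφ]
  unfold EE
  have a1 : ∑ a, ∑ b, W a b * cod W a b * (g a b + t * φ a b) ^ 2
      = ∑ a, ∑ b, W a b * cod W a b * g a b ^ 2
        + 2 * t * ∑ a, ∑ b, W a b * cod W a b * (g a b * φ a b)
        + t ^ 2 * ∑ a, ∑ b, W a b * cod W a b * φ a b ^ 2 := by
    simp only [Finset.mul_sum, ← Finset.sum_add_distrib]
    refine Finset.sum_congr rfl fun a _ => Finset.sum_congr rfl fun b _ => ?_
    ring
  have a2 : ∑ a, ∑ b, ∑ c, W a b * W a c * (1 - W b c)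
        * ((g a b + t * φ a b) * (g a c + t * φ a c))
      = ∑ a, ∑ b, ∑ c, W a b * W a c * (1 - W b c) * (g a b * g a c)
        + t * ∑ a, ∑ b, ∑ c, W a b * W a c * (1 - W b c) * (φ a b * g a c)
        + t * ∑ a, ∑ b, ∑ c, W a b * W a c * (1 - W b c) * (g a b * φ a c)
        + t ^ 2 * ∑ a, ∑ b, ∑ c, W a b * W a c * (1 - W b c) * (φ a b * φ a c) := by
    simp only [Finset.mul_sum, ← Finset.sum_add_distrib]
    refine Finset.sum_congr rfl fun a _ => Finset.sum_congr rfl fun b _ =>
      Finset.sum_congr rfl fun c _ => ?_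
    ring
  rw [a1, a2, e3]
  ring

theorem GG_add (W g φ : V → V → ℝ) (t : ℝ) (x : V) :
    GG W (fun a b => g a b + t * φ a b) x = GG W g x + t * GG W φ x := by
  unfold GG
  rw [Finset.mul_sum, ← Finset.sum_add_distrib]
  exact Finset.sum_congr rfl fun z _ => by ring

/-- first order upper bound for the functional -/
theorem Psi_add_le {W : V → V → ℝ} (hW : IsWeight W) {g φ : V → V → ℝ}
    (hg : ∀ x y, g x y = g y x) (hφ : ∀ x y, φ x y = φ y x) (t : ℝ) :
    Psi W (fun a b => g a b + t * φ a b)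
      ≤ Psi W g + t * ((∑ a, ∑ b, W a b * φ a b * mm W g a b) / 2
          - ∑ x, (max 0 (1 / 2 - GG W g x)) * GG W φ x)
        + t ^ 2 * (EE W φ / 2 + (∑ x, GG W φ x ^ 2) / 2) := by
  unfold Psi
  rw [EE_add hW hg hφ]
  have h1 : ∑ x, (max 0 (1 / 2 - GG W (fun a b => g a b + t * φ a b) x)) ^ 2
      ≤ ∑ x, ((max 0 (1 / 2 - GG W g x)) ^ 2
          - 2 * (max 0 (1 / 2 - GG W g x)) * (t * GG W φ x) + (t * GG W φ x) ^ 2) := by
    refine Finset.sum_le_sum fun x _ => ?_
    have := max_sq_le (1 / 2 - GG W g x) (t * GG W φ x)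
    rw [GG_add]
    have e : 1 / 2 - (GG W g x + t * GG W φ x) = 1 / 2 - GG W g x - t * GG W φ x := by ring
    rw [e]
    exact this
  have h2 : ∑ x, ((max 0 (1 / 2 - GG W g x)) ^ 2
          - 2 * (max 0 (1 / 2 - GG W g x)) * (t * GG W φ x) + (t * GG W φ x) ^ 2)
      = ∑ x, (max 0 (1 / 2 - GG W g x)) ^ 2
        - 2 * t * ∑ x, (max 0 (1 / 2 - GG W g x)) * GG W φ x
        + t ^ 2 * ∑ x, GG W φ x ^ 2 := by
    rw [Finset.mul_sum, Finset.mul_sum, ← Finset.sum_sub_distrib, ← Finset.sum_add_distrib]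
    exact Finset.sum_congr rfl fun x _ => by ring
  rw [h2] at h1
  linarith

/-- the symmetric unit perturbation at the pair `x,y` -/
def dl [DecidableEq V] (x y : V) (a b : V) : ℝ :=
  (if a = x ∧ b = y then 1 else 0) + (if a = y ∧ b = x then 1 else 0)

theorem dl_symm [DecidableEq V] (x y a b : V) : dl x y a b = dl x y b a := by
  unfold dl
  rw [add_comm]
  congr 1
  · exact if_congr and_comm rfl rfl
  · exact if_congr and_comm rfl rfl

theorem sum_dl [DecidableEq V] (x y : V) (K : V → V → ℝ) :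
    ∑ a, ∑ b, dl x y a b * K a b = K x y + K y x := by
  have h : ∀ u v : V, ∑ a, ∑ b, (if a = u ∧ b = v then (1:ℝ) else 0) * K a b = K u v := by
    intro u v
    rw [Finset.sum_eq_single u]
    · rw [Finset.sum_eq_single v]
      · simp
      · intro b _ hb
        simp [hb]
      · intro h
        exact absurd (Finset.mem_univ v) h
    · intro a _ ha
      exact Finset.sum_eq_zero fun b _ => by simp [ha]
    · intro h
      exact absurd (Finset.mem_univ u) h
  unfold dl
  simp only [add_mul, Finset.sum_add_distrib]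
  rw [h, h]

theorem pert_deriv [DecidableEq V] {W : V → V → ℝ} (hW : IsWeight W) {g : V → V → ℝ}
    (hg : ∀ x y, g x y = g y x) (x y : V) :
    (∑ a, ∑ b, W a b * dl x y a b * mm W g a b) / 2
          - ∑ a, (max 0 (1 / 2 - GG W g a)) * GG W (dl x y) a
      = W x y * (mm W g x y - max 0 (1 / 2 - GG W g x) - max 0 (1 / 2 - GG W g y)) := by
  have h1 : ∑ a, ∑ b, W a b * dl x y a b * mm W g a b
      = W x y * mm W g x y + W y x * mm W g y x := by
    rw [← sum_dl x y (fun a b => W a b * mm W g a b)]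
    exact Finset.sum_congr rfl fun a _ => Finset.sum_congr rfl fun b _ => by ring
  have h2 : ∑ a, (max 0 (1 / 2 - GG W g a)) * GG W (dl x y) a
      = max 0 (1 / 2 - GG W g x) * W x y + max 0 (1 / 2 - GG W g y) * W y x := by
    rw [← sum_dl x y (fun a b => max 0 (1 / 2 - GG W g a) * W a b)]
    refine Finset.sum_congr rfl fun a _ => ?_
    unfold GG
    rw [Finset.mul_sum]
    exact Finset.sum_congr rfl fun b _ => by ring
  have h3 : mm W g y x = mm W g x y := by
    unfold mm
    rw [cod_symm W y x, hg y x]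
    ring
  rw [h1, h2, h3, hW.symm y x]
  ring

end Pool.Agent.Lib.MP_24b5ff_co
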